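import Pool.Agent.U465.APMain

set_option autoImplicit false
set_option linter.unusedSectionVars false

/-! # Progression-free sets with prescribed symmetries: consequences -/

namespace Pool.Agent.U465.AP

open Finset

variable {p : ℕ} [hp : Fact p.Prime]

theorem card_le_r {k n : ℕ} {A : Finset (Fin n → ZMod p)} (hA : APFree k A) :
    A.card ≤ r k p n := le_csSup (r_bdd k n) ⟨A, hA, rfl⟩

theorem r_pos {k : ℕ} (hk : 2 ≤ k) (n : ℕ) : 1 ≤ r k p n := by
  have h : APFree k ({0} : Finset (Fin n → ZMod p)) := by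
    intro x y h
    have h0 := h 0 (by omega)
    have h1 := h 1 (by omega)
    simp only [zero_smul, add_zero, one_smul, mem_singleton] at h0 h1
    rw [h0, zero_add] at h1
    exact h1
  have := card_le_r h
  simpa using this

theorem r_mul {k : ℕ} (hk : 2 ≤ k) (m n : ℕ) : r k p m * r k p n ≤ r k p (m + n) := by
  classical
  obtain ⟨A, hA, hAc⟩ := exists_r (p := p) (k := k) (by omega) m
  obtain ⟨B, hB, hBc⟩ := exists_r (p := p) (k := k) (by omega) n
  let f : (Fin m → ZMod p) × (Fin n → ZMod p) → (Fin (m + n) → ZMod p) :=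
    fun q => Fin.append q.1 q.2
  have hl : ∀ q i, f q (Fin.castAdd n i) = q.1 i := fun q i => Fin.append_left _ _ _
  have hr : ∀ q i, f q (Fin.natAdd m i) = q.2 i := fun q i => Fin.append_right _ _ _
  have hf : Function.Injective f := by
    intro q q' h
    refine Prod.ext (funext fun i => ?_) (funext fun i => ?_)
    · rw [← hl q i, ← hl q' i, h]
    · rw [← hr q i, ← hr q' i, h]
  have hC : APFree k ((A ×ˢ B).image f) := by
    intro x y h
    have hx : ∀ j, j < k → (fun i => x (Fin.castAdd n i)) + j • (fun i => y (Fin.castAdd n i)) ∈ A ∧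
        (fun i => x (Fin.natAdd m i)) + j • (fun i => y (Fin.natAdd m i)) ∈ B := by
      intro j hj
      obtain ⟨q, hq, hqx⟩ := mem_image.1 (h j hj)
      rw [mem_product] at hq
      refine ⟨?_, ?_⟩
      · have : (fun i => x (Fin.castAdd n i)) + j • (fun i => y (Fin.castAdd n i)) = q.1 := by
          funext i
          rw [← hl q i, hqx]
          rfl
        rw [this]
        exact hq.1
      · have : (fun i => x (Fin.natAdd m i)) + j • (fun i => y (Fin.natAdd m i)) = q.2 := by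
          funext i
          rw [← hr q i, hqx]
          rfl
        rw [this]
        exact hq.2
    have h1 := hA _ _ fun j hj => (hx j hj).1
    have h2 := hB _ _ fun j hj => (hx j hj).2
    funext i
    refine Fin.addCases (fun i => ?_) (fun i => ?_) i
    · exact congrFun h1 i
    · exact congrFun h2 i
  have h3 := card_le_r hC
  rw [card_image_of_injective _ hf, card_product, hAc, hBc] at h3
  exact h3

theorem r_pow {k : ℕ} (hk : 2 ≤ k) (m q : ℕ) : r k p m ^ q ≤ r k p (m * q) := by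
  induction q with
  | zero =>
    rw [pow_zero]
    exact r_pos hk _
  | succ q ih =>
    rw [pow_succ, Nat.mul_succ]
    exact (Nat.mul_le_mul_right _ ih).trans (r_mul hk _ _)

theorem r_mono {k : ℕ} (hk : 2 ≤ k) {m n : ℕ} (h : m ≤ n) : r k p m ≤ r k p n := by
  obtain ⟨s, rfl⟩ := Nat.exists_eq_add_of_le h
  calc r k p m = r k p m * 1 := (mul_one _).symm
    _ ≤ r k p m * r k p s := Nat.mul_le_mul_left _ (r_pos hk s)
    _ ≤ _ := r_mul hk m s

theorem r_le (k n : ℕ) : r k p n ≤ p ^ n := by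
  unfold r
  apply csSup_le'
  rintro m ⟨B, _, rfl⟩
  calc B.card ≤ Fintype.card (Fin n → ZMod p) := Finset.card_le_univ B
    _ = p ^ n := by rw [Fintype.card_fun, ZMod.card, Fintype.card_fin]

theorem r_succ_le {k : ℕ} (hk : 0 < k) (m : ℕ) : r k p (m + 1) ≤ p * r k p m := by
  classical
  obtain ⟨A, hA, hAc⟩ := exists_r (p := p) hk (m + 1)
  rw [← hAc, Finset.card_eq_sum_card_fiberwise (s := A) (t := (univ : Finset (ZMod p)))
    (f := fun x => x 0) (fun _ _ => mem_coe.2 (mem_univ _))]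
  calc _ ≤ ∑ a : ZMod p, r k p m := by
        refine sum_le_sum fun a _ => ?_
        have hinj : Set.InjOn (fun x : Fin (m + 1) → ZMod p => Fin.tail x)
            (A.filter fun x => x 0 = a) := by
          intro x hx x' hx' h
          have h1 := (mem_filter.1 hx).2
          have h2 := (mem_filter.1 hx').2
          funext i
          refine Fin.cases ?_ (fun i => ?_) i
          · rw [h1, h2]
          · exact congrFun h i
        rw [← card_image_of_injOn hinj]
        apply card_le_r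
        intro x y h
        have h' : ∀ j < k, Fin.cons a x + j • (Fin.cons 0 y : Fin (m + 1) → ZMod p) ∈ A := by
          intro j hj
          obtain ⟨z, hz, hzx⟩ := mem_image.1 (h j hj)
          obtain ⟨hzA, hz0⟩ := mem_filter.1 hz
          convert hzA using 1
          funext i
          refine Fin.cases ?_ (fun i => ?_) i
          · simp [hz0]
          · have := congrFun hzx i
            simp only [Fin.tail] at this
            simp [this]
        have h1 := hA _ _ h'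
        funext i
        have := congrFun h1 i.succ
        simpa using this
    _ = p * r k p m := by rw [sum_const, Finset.card_univ, ZMod.card, smul_eq_mul]

theorem r_add_le {k : ℕ} (hk : 0 < k) (m j : ℕ) : r k p (m + j) ≤ p ^ j * r k p m := by
  induction j with
  | zero => simp
  | succ j ih =>
    calc r k p (m + (j + 1)) ≤ p * r k p (m + j) := r_succ_le hk _
      _ ≤ p * (p ^ j * r k p m) := Nat.mul_le_mul_left _ ih
      _ = _ := by ring

theorem lam_bdd (k : ℕ) :
    BddAbove (Set.range fun n : ℕ => (r k p (n + 1) : ℝ) ^ (1 / ((n : ℝ) + 1))) := by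
  refine ⟨(p : ℝ), ?_⟩
  rintro _ ⟨m, rfl⟩
  have h1 : (r k p (m + 1) : ℝ) ≤ (p : ℝ) ^ (m + 1) := by exact_mod_cast r_le k (m + 1)
  have h2 : (0 : ℝ) ≤ (r k p (m + 1) : ℝ) := by positivity
  calc (r k p (m + 1) : ℝ) ^ (1 / ((m : ℝ) + 1))
      ≤ ((p : ℝ) ^ (m + 1)) ^ (1 / ((m : ℝ) + 1)) :=
        Real.rpow_le_rpow h2 h1 (by positivity)
    _ = p := by
        rw [← Real.rpow_natCast, ← Real.rpow_mul (by positivity)]
        push_cast
        rw [mul_one_div_cancel (by positivity), Real.rpow_one]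

theorem r_le_lam (k n : ℕ) : (r k p n : ℝ) ≤ lam k p ^ n := by
  rcases Nat.eq_zero_or_pos n with h | h
  · subst h
    rw [pow_zero]
    have := r_le (p := p) k 0
    rw [pow_zero] at this
    exact_mod_cast this
  · obtain ⟨m, rfl⟩ : ∃ m, n = m + 1 := ⟨n - 1, by omega⟩
    have h1 : (r k p (m + 1) : ℝ) ^ (1 / ((m : ℝ) + 1)) ≤ lam k p := le_ciSup (lam_bdd k) m
    have h2 : (0 : ℝ) ≤ (r k p (m + 1) : ℝ) := by positivity
    calc (r k p (m + 1) : ℝ) = ((r k p (m + 1) : ℝ) ^ (1 / ((m : ℝ) + 1))) ^ (m + 1) := by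
          rw [← Real.rpow_natCast, ← Real.rpow_mul h2]
          push_cast
          rw [one_div_mul_cancel (by positivity), Real.rpow_one]
      _ ≤ lam k p ^ (m + 1) := pow_le_pow_left₀ (by positivity) h1 _

theorem lam_ge {k : ℕ} (hk : 3 ≤ k) (hkp : k ≤ p) : 2 ≤ lam k p := by
  -- a set with two elements
  have h : APFree k ({(fun _ => 0), (fun _ => 1)} : Finset (Fin 1 → ZMod p)) := by
    intro x y h
    have h0 := h 0 (by omega)
    have h1 := h 1 (by omega)
    have h2 := h 2 (by omega)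
    have hp2 : p ≠ 2 := by omega
    have h20 : (2 : ZMod p) ≠ 0 := two_ne hp2
    have hev : ∀ z : Fin 1 → ZMod p, z ∈ ({(fun _ => 0), (fun _ => 1)} : Finset (Fin 1 → ZMod p)) →
        z 0 = 0 ∨ z 0 = 1 := by
      intro z hz
      simp only [mem_insert, mem_singleton] at hz
      rcases hz with h | h <;> rw [h] <;> simp
    have e0 := hev _ h0
    have e1 := hev _ h1
    have e2 := hev _ h2
    have h2y : (x + 2 • y) 0 = x 0 + 2 * y 0 := by
      rw [two_nsmul]
      simp only [Pi.add_apply]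
      ring
    rw [h2y] at e2
    simp only [zero_smul, one_smul, Pi.add_apply, Pi.zero_apply, add_zero] at e0 e1
    have hy : y 0 = 0 := by
      rcases e0 with a | a <;> rcases e1 with b | b <;> rcases e2 with c | c
      · linear_combination b - a
      · linear_combination b - a
      · exfalso
        apply h20
        linear_combination a - 2 * b + c
      · exfalso
        have : (1 : ZMod p) = 0 := by linear_combination a - 2 * b + c
        exact one_ne_zero this
      · exfalso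
        have : (1 : ZMod p) = 0 := by linear_combination -a + 2 * b - c
        exact one_ne_zero this
      · exfalso
        apply h20
        linear_combination -a + 2 * b - c
      · linear_combination b - a
      · linear_combination b - a
    funext i
    rw [Subsingleton.elim i 0, hy]
    rfl
  have h1 := card_le_r h
  rw [card_pair (by
    intro h
    have := congrFun h 0
    exact zero_ne_one this)] at h1
  have h2 : (r k p (0 + 1) : ℝ) ^ (1 / (((0 : ℕ) : ℝ) + 1)) ≤ lam k p := le_ciSup (lam_bdd k) 0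
  rw [Nat.cast_zero, zero_add, zero_add, div_one, Real.rpow_one] at h2
  have h3 : (2 : ℝ) ≤ r k p 1 := by exact_mod_cast h1
  linarith

/-- `r_k(F_p^n) ≥ ρ^n` for `ρ < λ` and large `n` -/
theorem r_ge {k : ℕ} (hk : 3 ≤ k) (ρ : ℝ) (h1 : 1 ≤ ρ) (h2 : ρ < lam k p) :
    ∃ n₀ : ℕ, ∀ n ≥ n₀, ρ ^ n ≤ (r k p n : ℝ) := by
  obtain ⟨ρ', hρ1, hρ2⟩ := exists_between h2
  obtain ⟨m, hm⟩ := exists_lt_of_lt_ciSup (show ρ' < ⨆ n : ℕ, (r k p (n + 1) : ℝ) ^
    (1 / ((n : ℝ) + 1)) from hρ2)
  have hρ'1 : 1 < ρ' := lt_of_le_of_lt h1 hρ1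
  have hm' : ρ' ^ (m + 1) ≤ r k p (m + 1) := by
    have h2 : (0 : ℝ) ≤ (r k p (m + 1) : ℝ) := by positivity
    calc ρ' ^ (m + 1) ≤ ((r k p (m + 1) : ℝ) ^ (1 / ((m : ℝ) + 1))) ^ (m + 1) :=
          pow_le_pow_left₀ (by linarith) hm.le _
      _ = r k p (m + 1) := by
          rw [← Real.rpow_natCast, ← Real.rpow_mul h2]
          push_cast
          rw [one_div_mul_cancel (by positivity), Real.rpow_one]
  -- `ρ' ^ (n - m - 1) ≥ ρ ^ n` for large `n`
  have hratio : 1 < ρ' / ρ := by rw [one_lt_div (by linarith)]; exact hρ1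
  obtain ⟨n₀, hn₀⟩ := pow_unbounded_of_one_lt (ρ' ^ (m + 1)) hratio
  refine ⟨n₀, fun n hn => ?_⟩
  set q := n / (m + 1) with hq
  have hn1 : n ≤ (m + 1) * q + (m + 1) := by
    have h3 := Nat.mod_lt n (Nat.succ_pos m)
    calc n = (m + 1) * q + n % (m + 1) := (Nat.div_add_mod n (m + 1)).symm
      _ ≤ _ := Nat.add_le_add_left h3.le _
  have hn2 : (m + 1) * q ≤ n := Nat.mul_div_le n (m + 1)
  have h3 : (r k p (m + 1) : ℝ) ^ q ≤ r k p n := by
    exact_mod_cast (r_pow (by omega) (m + 1) q).trans (r_mono (by omega) hn2)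
  have h4 : (ρ' ^ (m + 1)) ^ q ≤ (r k p (m + 1) : ℝ) ^ q :=
    pow_le_pow_left₀ (by positivity) hm' _
  have h5 : ρ' ^ n ≤ (ρ' ^ (m + 1)) ^ q * ρ' ^ (m + 1) := by
    rw [← pow_mul, ← pow_add]
    exact pow_le_pow_right₀ hρ'1.le hn1
  have h6 : ρ' ^ (m + 1) ≤ (ρ' / ρ) ^ n :=
    hn₀.le.trans (pow_le_pow_right₀ hratio.le hn)
  have h7 : ρ ^ n * ρ' ^ (m + 1) ≤ ρ' ^ n := by
    calc ρ ^ n * ρ' ^ (m + 1) ≤ ρ ^ n * (ρ' / ρ) ^ n :=
          mul_le_mul_of_nonneg_left h6 (by positivity)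
      _ = ρ' ^ n := by
          rw [← mul_pow, mul_div_cancel₀ _ (by linarith : ρ ≠ 0)]
  have h8 : ρ ^ n * ρ' ^ (m + 1) ≤ (r k p n : ℝ) * ρ' ^ (m + 1) :=
    h7.trans (h5.trans (mul_le_mul_of_nonneg_right (h4.trans h3) (by positivity)))
  exact le_of_mul_le_mul_right h8 (by positivity)

/-- for general index sets -/
theorem rG_le {k : ℕ} {ι : Type} [Fintype ι] (G : Subgroup (Equiv.Perm (ι → ZMod p))) :
    rG k G ≤ r k p (Fintype.card ι) := by
  classical
  unfold rG
  apply csSup_le'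
  rintro m ⟨B, hB, _, rfl⟩
  let e := Fintype.equivFin ι
  let f : (ι → ZMod p) → (Fin (Fintype.card ι) → ZMod p) := fun x j => x (e.symm j)
  have hf : Function.Injective f := by
    intro x x' h
    funext i
    have := congrFun h (e i)
    simpa [f] using this
  rw [← card_image_of_injective B hf]
  apply card_le_r
  intro x y h
  have h1 : (fun i => y (e i)) = 0 := by
    apply hB (fun i => x (e i))
    intro j hj
    obtain ⟨z, hz, hzx⟩ := mem_image.1 (h j hj)
    convert hz using 1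
    funext i
    have := congrFun hzx (e i)
    simp only [f, Equiv.symm_apply_apply] at this
    rw [this]
    rfl
  funext j
  have := congrFun h1 (e.symm j)
  simpa using this

theorem Theta_nonneg {ι : Type} [Fintype ι] (G : Subgroup (Equiv.Perm (ι → ZMod p))) (δ : ℝ) :
    0 ≤ Theta G δ := by
  unfold Theta
  refine sum_nonneg fun g _ => ?_
  split_ifs
  · exact (Real.exp_pos _).le
  · exact le_refl _

theorem Theta_anti {ι : Type} [Fintype ι] (G : Subgroup (Equiv.Perm (ι → ZMod p))) {δ δ' : ℝ}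
    (h : δ ≤ δ') : Theta G δ' ≤ Theta G δ := by
  unfold Theta
  refine sum_le_sum fun g _ => ?_
  split_ifs
  · apply Real.exp_le_exp.2
    have : (0 : ℝ) ≤ (supp g).card := by positivity
    nlinarith
  · exact le_refl _

/-- the inequality, with `ε` -/
theorem ineq {k : ℕ} (hk : 3 ≤ k) (hkp : k ≤ p) (ε : ℝ) (hε : 0 < ε) (hε1 : ε ≤ 1)
    {ι : Type} [Fintype ι] (G : Subgroup (Equiv.Perm (ι → ZMod p))) (hG : ∀ g ∈ G, Signed g)
    (hΘ : Theta G (ε ^ 3 / 2250) ≤ 1 / 5) :
    (∃ m : ℕ, (1 - ε) * Fintype.card ι ≤ m ∧ m ≤ Fintype.card ι ∧ r k p m ≤ rG k G) ∧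
      (r k p (Fintype.card ι) : ℝ) ≤ (p : ℝ) ^ (ε * Fintype.card ι) * rG k G := by
  have hp2 : p ≠ 2 := by omega
  set Q := ⌈4 / ε⌉₊ with hQ
  have h4 : 4 / ε ≤ Q := Nat.le_ceil _
  have h4' : (4 : ℝ) ≤ 4 / ε := by
    rw [le_div_iff₀ hε]
    nlinarith
  have hQ2 : 2 ≤ Q := by
    have : (4 : ℝ) ≤ Q := h4'.trans h4
    have : 4 ≤ Q := by exact_mod_cast this
    omega
  have hQ0 : (0 : ℝ) < Q := by exact_mod_cast (by omega : 0 < Q)
  have hQ5 : (Q : ℝ) ≤ 5 / ε := by
    have h1 : (Q : ℝ) < 4 / ε + 1 := Nat.ceil_lt_add_one (by positivity)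
    have h2 : (1 : ℝ) ≤ 1 / ε := by rw [le_div_iff₀ hε]; linarith
    have h3 : 4 / ε + 1 / ε = 5 / ε := by ring
    linarith
  have hδ : ε ^ 3 / 2250 ≤ 1 / (18 * (Q : ℝ) ^ 3) := by
    rw [div_le_div_iff₀ (by norm_num) (by positivity)]
    have h1 : (Q : ℝ) * ε ≤ 5 := by rwa [le_div_iff₀ hε] at hQ5
    have h2 : ((Q : ℝ) * ε) ^ 3 ≤ 5 ^ 3 := pow_le_pow_left₀ (by positivity) h1 3
    nlinarith
  obtain ⟨m, hm1, hm2, hm3⟩ := main hp2 hk hkp G hG Q hQ2 ((Theta_anti G hδ).trans hΘ)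
  set n := Fintype.card ι with hn
  have hnm : ((n - m : ℕ) : ℝ) ≤ ε * n := by
    have h1 : (Q : ℝ) * ((n - m : ℕ) : ℝ) ≤ 4 * n := by exact_mod_cast hm2
    have h2 : (4 / ε) * ((n - m : ℕ) : ℝ) ≤ 4 * n :=
      (mul_le_mul_of_nonneg_right h4 (by positivity)).trans h1
    have h3 : 4 * ((n - m : ℕ) : ℝ) ≤ 4 * (ε * n) := by
      calc 4 * ((n - m : ℕ) : ℝ) = ε * ((4 / ε) * ((n - m : ℕ) : ℝ)) := by
            field_simp
        _ ≤ ε * (4 * n) := mul_le_mul_of_nonneg_left h2 hε.le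
        _ = _ := by ring
    linarith
  refine ⟨⟨m, ?_, hm1, hm3⟩, ?_⟩
  · rw [Nat.cast_sub hm1] at hnm
    linarith
  · have h1 : r k p n ≤ p ^ (n - m) * r k p m := by
      have := r_add_le (p := p) (k := k) (by omega) m (n - m)
      rwa [Nat.add_sub_cancel' hm1] at this
    have hp1 : (1 : ℝ) ≤ p := by exact_mod_cast hp.out.one_lt.le
    calc (r k p n : ℝ) ≤ (p : ℝ) ^ (n - m) * r k p m := by exact_mod_cast h1
      _ ≤ (p : ℝ) ^ (n - m) * rG k G :=
          mul_le_mul_of_nonneg_left (by exact_mod_cast hm3) (by positivity)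
      _ ≤ (p : ℝ) ^ (ε * n) * rG k G := by
          refine mul_le_mul_of_nonneg_right ?_ (by positivity)
          rw [← Real.rpow_natCast]
          exact Real.rpow_le_rpow_of_exponent_le hp1 hnm

/-- the growth rate -/
theorem growth {k : ℕ} (hk : 3 ≤ k) (hkp : k ≤ p) (ρ : ℝ) (hρ0 : 0 ≤ ρ) (hρ : ρ < lam k p) :
    ∃ δ : ℝ, 0 < δ ∧ ∃ n₀ : ℕ, ∀ {ι : Type} [Fintype ι] (G : Subgroup (Equiv.Perm (ι → ZMod p))),
      (∀ g ∈ G, Signed g) → n₀ ≤ Fintype.card ι → Theta G δ ≤ 1 / 5 →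
        ρ ^ Fintype.card ι ≤ rG k G ∧ (rG k G : ℝ) ≤ lam k p ^ Fintype.card ι := by
  set ρ₁ := max ρ 1 with hρ₁
  have hl : 2 ≤ lam k p := lam_ge hk hkp
  have h1 : ρ₁ < lam k p := max_lt hρ (by linarith)
  obtain ⟨ρ', hρ'1, hρ'2⟩ := exists_between h1
  have hρ₁1 : 1 ≤ ρ₁ := le_max_right _ _
  have hρ'0 : 1 < ρ' := lt_of_le_of_lt hρ₁1 hρ'1
  obtain ⟨N, hN⟩ := r_ge (p := p) hk ρ' hρ'0.le hρ'2
  have hlog : 0 < Real.log ρ' := Real.log_pos hρ'0
  have hlog1 : Real.log ρ₁ < Real.log ρ' := Real.log_lt_log (by linarith) hρ'1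
  have hlog0 : 0 ≤ Real.log ρ₁ := Real.log_nonneg hρ₁1
  set ε := min (1 / 2) (1 - Real.log ρ₁ / Real.log ρ') with hε
  have hε0 : 0 < ε := by
    apply lt_min (by norm_num)
    have : Real.log ρ₁ / Real.log ρ' < 1 := by rwa [div_lt_one hlog]
    linarith
  have hε2 : ε ≤ 1 / 2 := min_le_left _ _
  have hε3 : Real.log ρ₁ ≤ (1 - ε) * Real.log ρ' := by
    have h2 : ε ≤ 1 - Real.log ρ₁ / Real.log ρ' := min_le_right _ _
    have h3 : Real.log ρ₁ / Real.log ρ' ≤ 1 - ε := by linarith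
    rwa [div_le_iff₀ hlog] at h3
  refine ⟨ε ^ 3 / 2250, by positivity, 2 * N, ?_⟩
  intro ι _ G hG hn hΘ
  set n := Fintype.card ι with hn'
  obtain ⟨⟨m, hm1, hm2, hm3⟩, _⟩ := ineq hk hkp ε hε0 (by linarith) G hG hΘ
  refine ⟨?_, ?_⟩
  · have hNm : N ≤ m := by
      have h2 : (N : ℝ) ≤ m := by
        have h3 : (2 * N : ℝ) ≤ n := by exact_mod_cast hn
        have h4 : (1 / 2 : ℝ) * n ≤ (1 - ε) * n :=
          mul_le_mul_of_nonneg_right (by linarith) (by positivity)
        linarith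
      exact_mod_cast h2
    have h5 : ρ' ^ m ≤ (r k p m : ℝ) := hN m hNm
    have h6 : ρ₁ ^ n ≤ ρ' ^ m := by
      rw [← Real.log_le_log_iff (by positivity) (by positivity), Real.log_pow, Real.log_pow]
      calc (n : ℝ) * Real.log ρ₁ ≤ n * ((1 - ε) * Real.log ρ') :=
            mul_le_mul_of_nonneg_left hε3 (by positivity)
        _ = ((1 - ε) * n) * Real.log ρ' := by ring
        _ ≤ m * Real.log ρ' := mul_le_mul_of_nonneg_right hm1 hlog.le
    calc ρ ^ n ≤ ρ₁ ^ n := pow_le_pow_left₀ hρ0 (le_max_left _ _) _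
      _ ≤ ρ' ^ m := h6
      _ ≤ r k p m := h5
      _ ≤ rG k G := by exact_mod_cast hm3
  · calc (rG k G : ℝ) ≤ r k p n := by exact_mod_cast rG_le G
      _ ≤ _ := r_le_lam k n

end Pool.Agent.U465.AP
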