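import Mathlib

set_option autoImplicit false

/-! # Definitions for progression-free sets with symmetries -/

namespace Pool.Agent.U465.AP

section

open Finset
open scoped Classical

/-- `A` contains no progression `x, x + y, …, x + (k - 1) y` with `y ≠ 0`. -/
def APFree (k : ℕ) {V : Type} [AddCommGroup V] (A : Finset V) : Prop :=
  ∀ x y : V, (∀ j : ℕ, j < k → x + j • y ∈ A) → y = 0

/-- `r_k(F_p^n)`: the largest size of a subset of `F_p^n` without nontrivial `k`-term
progressions. -/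
noncomputable def r (k p n : ℕ) : ℕ :=
  sSup {m : ℕ | ∃ A : Finset (Fin n → ZMod p), APFree k A ∧ A.card = m}

/-- `λ_{k,p} = sup_{n ≥ 1} r_k(F_p^n)^{1/n}`. -/
noncomputable def lam (k p : ℕ) : ℝ :=
  ⨆ n : ℕ, (r k p (n + 1) : ℝ) ^ (1 / ((n : ℝ) + 1))

/-- `g` permutes the coordinates of the vectors `x ∈ F_p^ι` and changes the signs of some of them. -/
def Signed {p : ℕ} {ι : Type} (g : Equiv.Perm (ι → ZMod p)) : Prop :=
  ∃ (σ : Equiv.Perm ι) (ε : ι → ℤˣ), ∀ x i, g x i = ((ε i : ℤ) : ZMod p) * x (σ i)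

/-- The set of the coordinates which `g` changes in some vector. -/
noncomputable def supp {p : ℕ} {ι : Type} [Fintype ι] (g : Equiv.Perm (ι → ZMod p)) : Finset ι :=
  univ.filter fun i => ∃ x, g x i ≠ x i

/-- `Θ_G(δ) = ∑_{g ∈ G, g ≠ 1} exp (-δ |supp g|)`. -/
noncomputable def Theta {p : ℕ} {ι : Type} [Fintype ι] [NeZero p]
    (G : Subgroup (Equiv.Perm (ι → ZMod p))) (δ : ℝ) : ℝ :=
  ∑ g : Equiv.Perm (ι → ZMod p), if g ∈ G ∧ g ≠ 1 then Real.exp (-(δ * (supp g).card)) else 0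

/-- The largest size of a subset of `F_p^ι` without nontrivial `k`-term progressions which is
invariant under `G`. -/
noncomputable def rG (k : ℕ) {p : ℕ} {ι : Type} [Fintype ι]
    (G : Subgroup (Equiv.Perm (ι → ZMod p))) : ℕ :=
  sSup {m : ℕ | ∃ A : Finset (ι → ZMod p), APFree k A ∧ (∀ g ∈ G, ∀ x ∈ A, g x ∈ A) ∧ A.card = m}

end

end Pool.Agent.U465.AP
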