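import Mathlib

set_option autoImplicit false

/-! # Sums over permutation groups -/

namespace Pool.Agent.U465

open Finset

/-- the number of the moved points -/
def mv {ι : Type} [Fintype ι] [DecidableEq ι] (π : Equiv.Perm ι) : ℕ :=
  (univ.filter fun i => π i ≠ i).card

/-- all permutations -/
theorem sum_perm_le (m : ℕ) (t : ℝ) (ht : 0 ≤ t) :
    ∑ π : Equiv.Perm (Fin m), t ^ mv π ≤ (1 + m * t) ^ m := by
  classical
  have h1 : ∀ π : Equiv.Perm (Fin m), t ^ mv π = ∏ a : Fin m, (if π a = a then 1 else t) := by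
    intro π
    rw [prod_ite, prod_const_one, one_mul, prod_const]
    rfl
  have h2 : ∑ π : Equiv.Perm (Fin m), t ^ mv π ≤
      ∑ f : Fin m → Fin m, ∏ a : Fin m, (if f a = a then 1 else t) := by
    calc ∑ π : Equiv.Perm (Fin m), t ^ mv π
        = ∑ π : Equiv.Perm (Fin m), ∏ a : Fin m, (if π a = a then 1 else t) :=
          sum_congr rfl fun π _ => h1 π
      _ = ∑ f ∈ Finset.image (fun (π : Equiv.Perm (Fin m)) => (⇑π : Fin m → Fin m)) univ,
            ∏ a : Fin m, (if f a = a then 1 else t) := by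
          rw [sum_image (fun π _ π' _ h => Equiv.coe_fn_injective h)]
      _ ≤ _ := sum_le_sum_of_subset_of_nonneg (subset_univ _) fun f _ _ =>
          prod_nonneg fun a _ => by split_ifs <;> linarith
  refine h2.trans ?_
  have h3 : ∑ f : Fin m → Fin m, ∏ a : Fin m, (if f a = a then 1 else t) =
      ∏ a : Fin m, ∑ b : Fin m, (if b = a then 1 else t) := by
    rw [prod_univ_sum, Fintype.piFinset_univ]
  rw [h3]
  have h4 : ∀ a : Fin m, ∑ b : Fin m, (if b = a then (1 : ℝ) else t) ≤ 1 + m * t := by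
    intro a
    calc ∑ b : Fin m, (if b = a then (1 : ℝ) else t)
        ≤ ∑ b : Fin m, ((if b = a then (1 : ℝ) else 0) + t) :=
          sum_le_sum fun b _ => by split_ifs <;> linarith
      _ = 1 + m * t := by
          rw [sum_add_distrib, sum_ite_eq' univ a, if_pos (mem_univ _), sum_const,
            Finset.card_univ, Fintype.card_fin, nsmul_eq_mul]
  calc ∏ a : Fin m, ∑ b : Fin m, (if b = a then (1 : ℝ) else t)
      ≤ ∏ _a : Fin m, (1 + m * t) :=
        prod_le_prod (fun a _ => sum_nonneg fun b _ => by split_ifs <;> linarith) fun a _ => h4 a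
    _ = (1 + m * t) ^ m := by rw [prod_const, Finset.card_univ, Fintype.card_fin]

/-- permutations of rows and columns -/
theorem mv_prod {m : ℕ} (π ρ : Equiv.Perm (Fin m)) :
    m * (mv π + mv ρ) ≤ 2 * mv (Equiv.prodCongr π ρ : Equiv.Perm (Fin m × Fin m)) := by
  classical
  have h1 : ((univ.filter fun i => π i ≠ i) ×ˢ (univ : Finset (Fin m))) ⊆
      univ.filter fun q : Fin m × Fin m => (Equiv.prodCongr π ρ : Equiv.Perm (Fin m × Fin m)) q ≠ q := by
    intro q hq
    rw [mem_product, mem_filter] at hq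
    refine mem_filter.2 ⟨mem_univ _, fun h => hq.1.2 ?_⟩
    have := congrArg Prod.fst h
    simpa using this
  have h2 : ((univ : Finset (Fin m)) ×ˢ (univ.filter fun i => ρ i ≠ i)) ⊆
      univ.filter fun q : Fin m × Fin m => (Equiv.prodCongr π ρ : Equiv.Perm (Fin m × Fin m)) q ≠ q := by
    intro q hq
    rw [mem_product, mem_filter] at hq
    refine mem_filter.2 ⟨mem_univ _, fun h => hq.2.2 ?_⟩
    have := congrArg Prod.snd h
    simpa using this
  have h3 := card_le_card h1
  have h4 := card_le_card h2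
  rw [card_product, Finset.card_univ, Fintype.card_fin] at h3 h4
  unfold mv
  nlinarith

/-- the sum for the permutations of rows and columns -/
theorem sum_rows_cols (m : ℕ) (δ : ℝ) (hδ : 0 ≤ δ) :
    ∑ a : Equiv.Perm (Fin m) × Equiv.Perm (Fin m),
      (if (Equiv.prodCongr a.1 a.2 : Equiv.Perm (Fin m × Fin m)) ≠ 1 then
        Real.exp (-(δ * mv (Equiv.prodCongr a.1 a.2 : Equiv.Perm (Fin m × Fin m)))) else 0) ≤
      Real.exp (2 * m ^ 2 * Real.exp (-(δ * m / 2))) - 1 := by
  classical
  set t := Real.exp (-(δ * m / 2)) with ht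
  have ht0 : 0 ≤ t := (Real.exp_pos _).le
  have h1 : ∀ a : Equiv.Perm (Fin m) × Equiv.Perm (Fin m),
      (if (Equiv.prodCongr a.1 a.2 : Equiv.Perm (Fin m × Fin m)) ≠ 1 then
        Real.exp (-(δ * mv (Equiv.prodCongr a.1 a.2 : Equiv.Perm (Fin m × Fin m)))) else 0) ≤
      t ^ mv a.1 * t ^ mv a.2 - if a = 1 then 1 else 0 := by
    intro a
    by_cases ha : a = 1
    · rw [ha]
      have h0 : (Equiv.prodCongr (1 : Equiv.Perm (Fin m) × Equiv.Perm (Fin m)).1
          (1 : Equiv.Perm (Fin m) × Equiv.Perm (Fin m)).2 : Equiv.Perm (Fin m × Fin m)) = 1 := by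
        ext q <;> simp
      rw [h0]
      simp [mv]
    · rw [if_neg ha, sub_zero]
      split_ifs
      · rw [ht, ← pow_add, ← Real.exp_nat_mul]
        apply Real.exp_le_exp.2
        have h2 := mv_prod a.1 a.2
        have h3 : (m : ℝ) * (mv a.1 + mv a.2) ≤
            2 * mv (Equiv.prodCongr a.1 a.2 : Equiv.Perm (Fin m × Fin m)) := by exact_mod_cast h2
        push_cast
        nlinarith
      · positivity
  calc _ ≤ ∑ a : Equiv.Perm (Fin m) × Equiv.Perm (Fin m),
        (t ^ mv a.1 * t ^ mv a.2 - if a = 1 then 1 else 0) := sum_le_sum fun a _ => h1 a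
    _ = (∑ π : Equiv.Perm (Fin m), t ^ mv π) ^ 2 - 1 := by
        rw [sum_sub_distrib, sum_ite_eq' univ (1 : Equiv.Perm (Fin m) × Equiv.Perm (Fin m)),
          if_pos (mem_univ _), sq, sum_mul_sum, ← univ_product_univ, sum_product]
    _ ≤ ((1 + m * t) ^ m) ^ 2 - 1 := by
        have h2 := sum_perm_le m t ht0
        have h3 : (0 : ℝ) ≤ ∑ π : Equiv.Perm (Fin m), t ^ mv π :=
          sum_nonneg fun π _ => by positivity
        have := pow_le_pow_left₀ h3 h2 2
        linarith
    _ ≤ Real.exp (2 * m ^ 2 * t) - 1 := by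
        have h2 : 1 + m * t ≤ Real.exp (m * t) := by
          have := Real.add_one_le_exp (m * t)
          linarith
        have h3 : ((1 + m * t) ^ m) ^ 2 ≤ ((Real.exp (m * t)) ^ m) ^ 2 :=
          pow_le_pow_left₀ (by positivity) (pow_le_pow_left₀ (by positivity) h2 _) _
        have h4 : ((Real.exp (m * t)) ^ m) ^ 2 = Real.exp (2 * m ^ 2 * t) := by
          rw [← Real.exp_nat_mul, ← Real.exp_nat_mul]
          congr 1
          push_cast
          ring
        rw [h4] at h3
        linarith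

open Filter Topology in
theorem rows_cols_small (δ : ℝ) (hδ : 0 < δ) :
    ∃ m₀ : ℕ, ∀ m ≥ m₀, Real.exp (2 * (m : ℝ) ^ 2 * Real.exp (-(δ * m / 2))) - 1 ≤ 1 / 5 := by
  have h1 : Tendsto (fun x : ℝ => x ^ 2 * Real.exp (-x)) atTop (𝓝 0) :=
    Real.tendsto_pow_mul_exp_neg_atTop_nhds_zero 2
  have h2 : Tendsto (fun m : ℕ => δ / 2 * (m : ℝ)) atTop atTop :=
    Tendsto.const_mul_atTop (by positivity) tendsto_natCast_atTop_atTop
  have h3 := h1.comp h2
  have h4 : Tendsto (fun m : ℕ => 2 * (m : ℝ) ^ 2 * Real.exp (-(δ * m / 2))) atTop (𝓝 0) := by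
    have h5 := h3.const_mul (8 / δ ^ 2)
    rw [mul_zero] at h5
    refine h5.congr fun m => ?_
    simp only [Function.comp]
    have : δ / 2 * (m : ℝ) = δ * m / 2 := by ring
    rw [this]
    field_simp
    ring
  have h5 : Tendsto (fun m : ℕ => Real.exp (2 * (m : ℝ) ^ 2 * Real.exp (-(δ * m / 2))) - 1) atTop
      (𝓝 0) := by
    have h6 := (Real.continuous_exp.tendsto 0).comp h4
    rw [Real.exp_zero] at h6
    have h7 := h6.sub_const 1
    rw [sub_self] at h7
    exact h7
  obtain ⟨m₀, h⟩ := Filter.eventually_atTop.1 (h5.eventually (ge_mem_nhds (show (0 : ℝ) < 1 / 5 by norm_num)))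
  exact ⟨m₀, h⟩

/-- left and right translations of a group: a nontrivial one moves at least half of the points -/
theorem mv_biinv {Γ : Type} [Group Γ] [Fintype Γ] [DecidableEq Γ] (φ : Equiv.Perm Γ) (a b : Γ)
    (hφ : ∀ x, φ x = a * x * b) (h1 : φ ≠ 1) : Fintype.card Γ ≤ 2 * mv φ := by
  classical
  -- the fixed points
  have hsum : (univ.filter fun x => φ x = x).card + mv φ = Fintype.card Γ := by
    unfold mv
    rw [← Finset.card_univ, Finset.card_filter_add_card_filter_not]
  suffices h : 2 * (univ.filter fun x => φ x = x).card ≤ Fintype.card Γ by omega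
  by_cases hne : ∃ x₀, φ x₀ = x₀
  · obtain ⟨x₀, hx₀⟩ := hne
    rw [hφ] at hx₀
    have hb : b = x₀⁻¹ * a⁻¹ * x₀ := by
      have := eq_inv_mul_of_mul_eq hx₀
      rwa [mul_inv_rev] at this
    set H := Subgroup.centralizer ({a} : Set Γ) with hH
    have hfix : ∀ x, φ x = x → x * x₀⁻¹ ∈ H := by
      intro x hx
      rw [hφ, hb] at hx
      rw [hH, Subgroup.mem_centralizer_singleton_iff]
      have h2 : a * (x * x₀⁻¹) * a⁻¹ = x * x₀⁻¹ := by
        calc a * (x * x₀⁻¹) * a⁻¹ = (a * x * (x₀⁻¹ * a⁻¹ * x₀)) * x₀⁻¹ := by group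
          _ = x * x₀⁻¹ := by rw [hx]
      have h3 := mul_inv_eq_iff_eq_mul.1 h2
      exact h3.symm
    have hcard : (univ.filter fun x => φ x = x).card ≤ Nat.card H := by
      rw [Nat.card_eq_fintype_card, ← Fintype.card_coe]
      refine Fintype.card_le_of_injective
        (fun x => (⟨x.1 * x₀⁻¹, hfix x.1 (mem_filter.1 x.2).2⟩ : H)) ?_
      intro x y h
      have := congrArg Subtype.val h
      simp only at this
      exact Subtype.ext (mul_right_cancel this)
    have hidx : 2 ≤ H.index := by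
      have h0 : H.index ≠ 0 := Subgroup.index_ne_zero_of_finite
      have h1' : H.index ≠ 1 := by
        intro h
        apply h1
        have htop : H = ⊤ := Subgroup.index_eq_one.1 h
        ext x
        rw [hφ, hb, Equiv.Perm.one_apply]
        have h2 : x * x₀⁻¹ ∈ H := by rw [htop]; trivial
        rw [hH, Subgroup.mem_centralizer_singleton_iff] at h2
        calc a * x * (x₀⁻¹ * a⁻¹ * x₀) = (a * (x * x₀⁻¹)) * a⁻¹ * x₀ := by group
          _ = ((x * x₀⁻¹) * a) * a⁻¹ * x₀ := by rw [← h2]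
          _ = x := by group
      omega
    have hmul := H.card_mul_index
    rw [Nat.card_eq_fintype_card (α := Γ)] at hmul
    calc 2 * (univ.filter fun x => φ x = x).card ≤ 2 * Nat.card H := Nat.mul_le_mul_left _ hcard
      _ ≤ H.index * Nat.card H := Nat.mul_le_mul_right _ hidx
      _ = Fintype.card Γ := by rw [mul_comm, hmul]
  · have : (univ.filter fun x => φ x = x) = ∅ := by
      rw [Finset.filter_eq_empty_iff]
      intro x _ h
      exact hne ⟨x, h⟩
    rw [this]
    simp

end Pool.Agent.U465
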