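import Pool.Agent.U465.APCor
import Pool.Agent.U465.Ex

set_option autoImplicit false
set_option linter.unusedSectionVars false

/-! # Progression-free sets with prescribed symmetries: examples -/

namespace Pool.Agent.U465.AP

open Finset

/-- permuting the coordinates -/
def coordHom (p : ℕ) (ι : Type) : Equiv.Perm ι →* Equiv.Perm (ι → ZMod p) where
  toFun π :=
    { toFun := fun x i => x (π⁻¹ i)
      invFun := fun x i => x (π i)
      left_inv := fun x => by funext i; simp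
      right_inv := fun x => by funext i; simp }
  map_one' := by ext x i; simp
  map_mul' π ρ := by ext x i; simp [mul_inv_rev]

variable {p : ℕ} [hp : Fact p.Prime]

theorem coordHom_apply {ι : Type} (π : Equiv.Perm ι) (x : ι → ZMod p) (i : ι) :
    coordHom p ι π x i = x (π⁻¹ i) := rfl

theorem coordHom_signed {ι : Type} (π : Equiv.Perm ι) : Signed (coordHom p ι π) :=
  ⟨π⁻¹, fun _ => 1, fun x i => by rw [coordHom_apply]; simp⟩

theorem mv_le_supp {ι : Type} [Fintype ι] [DecidableEq ι] (π : Equiv.Perm ι) :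
    mv π ≤ (supp (coordHom p ι π)).card := by
  unfold mv
  refine card_le_card fun i hi => ?_
  have h1 : π i ≠ i := (mem_filter.1 hi).2
  rw [mem_supp]
  refine ⟨Pi.single i 1, ?_⟩
  have h2 : π⁻¹ i ≠ i := by
    intro h
    apply h1
    have h3 := congrArg π h
    rw [← Equiv.Perm.mul_apply, mul_inv_cancel, Equiv.Perm.one_apply] at h3
    exact h3.symm
  rw [coordHom_apply, Pi.single_eq_of_ne h2, Pi.single_eq_same]
  exact zero_ne_one

open scoped Classical in
theorem Theta_range_le {Δ ι : Type} [Group Δ] [Fintype Δ] [Fintype ι]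
    (φ : Δ →* Equiv.Perm ι) (δ : ℝ) (hδ : 0 ≤ δ) :
    Theta ((coordHom p ι).comp φ).range δ ≤
      ∑ a : Δ, if φ a ≠ 1 then Real.exp (-(δ * mv (φ a))) else 0 := by
  set f : Δ → Equiv.Perm (ι → ZMod p) := fun a => coordHom p ι (φ a) with hf
  set F : Equiv.Perm (ι → ZMod p) → ℝ := fun g => Real.exp (-(δ * (supp g).card)) with hF
  set S : Finset Δ := univ.filter fun a => f a ≠ 1 with hS
  have h1 : Theta ((coordHom p ι).comp φ).range δ = ∑ g ∈ (univ.filter fun g =>
      g ∈ ((coordHom p ι).comp φ).range ∧ g ≠ 1), F g := by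
    unfold Theta
    rw [sum_filter]
    refine sum_congr rfl fun g _ => ?_
    by_cases h : g ∈ ((coordHom p ι).comp φ).range ∧ g ≠ 1
    · rw [if_pos h, if_pos h]
    · rw [if_neg h, if_neg h]
  have h2 : (univ.filter fun g => g ∈ ((coordHom p ι).comp φ).range ∧ g ≠ 1) ⊆ S.image f := by
    intro g hg
    obtain ⟨⟨a, ha⟩, hg1⟩ := (mem_filter.1 hg).2
    have ha' : f a = g := ha
    refine mem_image.2 ⟨a, mem_filter.2 ⟨mem_univ _, ?_⟩, ha'⟩
    rw [ha']
    exact hg1
  have h3 : ∑ g ∈ S.image f, F g ≤ ∑ a ∈ S, F (f a) := by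
    calc ∑ g ∈ S.image f, F g ≤ ∑ g ∈ S.image f, ∑ a ∈ S.filter (fun a => f a = g), F (f a) := by
          refine sum_le_sum fun g hg => ?_
          obtain ⟨a, ha, rfl⟩ := mem_image.1 hg
          exact single_le_sum (f := fun b => F (f b)) (fun b _ => (Real.exp_pos _).le)
            (mem_filter.2 ⟨ha, rfl⟩)
      _ = ∑ a ∈ S, F (f a) := sum_fiberwise_of_maps_to (fun a ha => mem_image_of_mem f ha) _
  rw [h1]
  refine (sum_le_sum_of_subset_of_nonneg h2 fun g _ _ => (Real.exp_pos _).le).trans (h3.trans ?_)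
  rw [← sum_filter]
  refine (sum_le_sum_of_subset_of_nonneg (t := univ.filter fun a => φ a ≠ 1) ?_
    fun a _ _ => (Real.exp_pos _).le).trans (sum_le_sum fun a _ => ?_)
  · intro a ha
    refine mem_filter.2 ⟨mem_univ _, fun h => (mem_filter.1 ha).2 ?_⟩
    simp only [hf]
    rw [h, map_one]
  · apply Real.exp_le_exp.2
    have h4 : ((mv (φ a) : ℕ) : ℝ) ≤ (supp (f a)).card := by exact_mod_cast mv_le_supp (φ a)
    nlinarith

theorem exists_rG {k : ℕ} (hk : 0 < k) {ι : Type} [Fintype ι]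
    (G : Subgroup (Equiv.Perm (ι → ZMod p))) :
    ∃ A : Finset (ι → ZMod p), APFree k A ∧ (∀ g ∈ G, ∀ x ∈ A, g x ∈ A) ∧ A.card = rG k G := by
  classical
  have h1 : {m : ℕ | ∃ A : Finset (ι → ZMod p), APFree k A ∧ (∀ g ∈ G, ∀ x ∈ A, g x ∈ A) ∧
      A.card = m}.Nonempty :=
    ⟨0, ∅, fun x y h => absurd (h 0 hk) (by simp), fun g _ x hx => absurd hx (by simp), rfl⟩
  refine Nat.sSup_mem h1 ⟨Fintype.card (ι → ZMod p), ?_⟩
  rintro m ⟨B, _, _, rfl⟩
  exact Finset.card_le_univ B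

open scoped Classical in
/-- few elements, large support -/
theorem minDegree {k : ℕ} (hk : 3 ≤ k) (hkp : k ≤ p) (ρ : ℝ) (hρ0 : 0 ≤ ρ) (hρ : ρ < lam k p) :
    ∃ C : ℝ, 0 < C ∧ ∀ {ι : Type} [Fintype ι] (G : Subgroup (Equiv.Perm (ι → ZMod p))),
      (∀ g ∈ G, Signed g) → C ≤ Fintype.card ι →
      (∀ g ∈ G, g ≠ 1 → C * (1 + Real.log (Nat.card G)) ≤ (supp g).card) →
        ρ ^ Fintype.card ι ≤ rG k G := by
  obtain ⟨δ, hδ, n₀, h⟩ := growth (p := p) hk hkp ρ hρ0 hρ
  refine ⟨max (2 / δ) (n₀ + 1), lt_max_of_lt_left (by positivity), ?_⟩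
  intro ι _ G hG hn hμ
  refine (h G hG ?_ ?_).1
  · have h1 : (n₀ : ℝ) ≤ Fintype.card ι := by
      have := (le_max_right (2 / δ) ((n₀ : ℝ) + 1)).trans hn
      linarith
    exact_mod_cast h1
  · have hcard : (0 : ℝ) < Nat.card G := by exact_mod_cast Nat.card_pos
    have hlog : 0 ≤ Real.log (Nat.card G) := Real.log_nonneg (by exact_mod_cast Nat.card_pos)
    have h1 : Theta G δ ≤ ∑ g : Equiv.Perm (ι → ZMod p), if g ∈ G then
        Real.exp (-(2 * (1 + Real.log (Nat.card G)))) else 0 := by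
      unfold Theta
      refine sum_le_sum fun g _ => ?_
      by_cases hg : g ∈ G
      · by_cases hg1 : g ≠ 1
        · rw [if_pos ⟨hg, hg1⟩, if_pos hg]
          apply Real.exp_le_exp.2
          have h2 := hμ g hg hg1
          have h3 : 2 / δ * (1 + Real.log (Nat.card G)) ≤ (supp g).card :=
            (mul_le_mul_of_nonneg_right (le_max_left _ _) (by linarith)).trans h2
          have h4 : δ * (2 / δ * (1 + Real.log (Nat.card G))) ≤ δ * (supp g).card :=
            mul_le_mul_of_nonneg_left h3 hδ.le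
          have h5 : δ * (2 / δ * (1 + Real.log (Nat.card G))) = 2 * (1 + Real.log (Nat.card G)) := by
            field_simp
          linarith
        · rw [if_neg (fun h => hg1 h.2), if_pos hg]
          exact (Real.exp_pos _).le
      · rw [if_neg (fun h => hg h.1), if_neg hg]
    refine h1.trans ?_
    rw [← sum_filter, sum_const, nsmul_eq_mul]
    have h2 : ((univ.filter fun g => g ∈ G).card : ℝ) = Nat.card G := by
      rw [Nat.card_eq_fintype_card, ← Fintype.card_subtype]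
    rw [h2]
    have h3 : Real.exp (-(2 * (1 + Real.log (Nat.card G)))) ≤ Real.exp (-2) * (Nat.card G : ℝ)⁻¹ := by
      have : (Nat.card G : ℝ)⁻¹ = Real.exp (-Real.log (Nat.card G)) := by
        rw [Real.exp_neg, Real.exp_log hcard]
      rw [this, ← Real.exp_add]
      apply Real.exp_le_exp.2
      linarith
    have h4 : Real.exp (-2) ≤ 1 / 5 := by
      have h5 : Real.exp 2 ≥ 5 := by
        have := Real.quadratic_le_exp_of_nonneg (show (0 : ℝ) ≤ 2 by norm_num)
        norm_num at this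
        linarith
      rw [Real.exp_neg, inv_le_comm₀ (Real.exp_pos _) (by norm_num)]
      linarith
    calc (Nat.card G : ℝ) * Real.exp (-(2 * (1 + Real.log (Nat.card G))))
        ≤ (Nat.card G : ℝ) * (Real.exp (-2) * (Nat.card G : ℝ)⁻¹) :=
          mul_le_mul_of_nonneg_left h3 hcard.le
      _ = Real.exp (-2) := by field_simp
      _ ≤ 1 / 5 := h4

/-- left and right translations of a group -/
theorem groups {k : ℕ} (hk : 3 ≤ k) (hkp : k ≤ p) (ρ : ℝ) (hρ0 : 0 ≤ ρ) (hρ : ρ < lam k p) :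
    ∃ n₀ : ℕ, ∀ (Γ : Type) [Group Γ] [Fintype Γ], n₀ ≤ Fintype.card Γ →
      ∃ A : Finset (Γ → ZMod p), APFree k A ∧
        (∀ a b : Γ, ∀ x ∈ A, (fun i => x (a * i * b)) ∈ A) ∧ ρ ^ Fintype.card Γ ≤ A.card := by
  classical
  obtain ⟨δ, hδ, n₀, h⟩ := growth (p := p) hk hkp ρ hρ0 hρ
  -- `n ^ 2 exp (-δ n / 2) ≤ 1 / 5` for large `n`
  have hlim : ∃ n₁ : ℕ, ∀ n ≥ n₁, (n : ℝ) ^ 2 * Real.exp (-(δ * n / 2)) ≤ 1 / 5 := by
    have h1 : Filter.Tendsto (fun x : ℝ => x ^ 2 * Real.exp (-x)) Filter.atTop (nhds 0) :=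
      Real.tendsto_pow_mul_exp_neg_atTop_nhds_zero 2
    have h2 : Filter.Tendsto (fun m : ℕ => δ / 2 * (m : ℝ)) Filter.atTop Filter.atTop :=
      Filter.Tendsto.const_mul_atTop (by positivity) tendsto_natCast_atTop_atTop
    have h4 : Filter.Tendsto (fun m : ℕ => (m : ℝ) ^ 2 * Real.exp (-(δ * m / 2))) Filter.atTop
        (nhds 0) := by
      have h5 := (h1.comp h2).const_mul (4 / δ ^ 2)
      rw [mul_zero] at h5
      refine h5.congr fun m => ?_
      simp only [Function.comp]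
      have : δ / 2 * (m : ℝ) = δ * m / 2 := by ring
      rw [this]
      field_simp
      ring
    obtain ⟨m₀, h⟩ := Filter.eventually_atTop.1 (h4.eventually (ge_mem_nhds
      (show (0 : ℝ) < 1 / 5 by norm_num)))
    exact ⟨m₀, h⟩
  obtain ⟨n₁, hn₁⟩ := hlim
  refine ⟨max n₀ n₁, fun Γ _ _ hn => ?_⟩
  -- the action
  let φ : Γ × Γ →* Equiv.Perm Γ :=
    { toFun := fun q =>
        { toFun := fun i => q.1 * i * q.2⁻¹
          invFun := fun i => q.1⁻¹ * i * q.2
          left_inv := fun i => by group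
          right_inv := fun i => by group }
      map_one' := by ext i; simp
      map_mul' := fun q q' => by
        ext i
        simp only [Equiv.coe_fn_mk, Equiv.Perm.coe_mul, Function.comp, Prod.fst_mul, Prod.snd_mul]
        group }
  have hφ : ∀ q i, φ q i = q.1 * i * q.2⁻¹ := fun q i => rfl
  set G := ((coordHom p Γ).comp φ).range with hG
  have hsig : ∀ g ∈ G, Signed g := by
    rintro g ⟨q, rfl⟩
    exact coordHom_signed _
  have hΘ : Theta G δ ≤ 1 / 5 := by
    refine (Theta_range_le φ δ hδ.le).trans ?_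
    refine le_trans ?_ (hn₁ (Fintype.card Γ) ((le_max_right _ _).trans hn))
    calc _ ≤ ∑ a : Γ × Γ, Real.exp (-(δ * Fintype.card Γ / 2)) := by
          refine sum_le_sum fun a _ => ?_
          by_cases h1 : φ a ≠ 1
          · rw [if_pos h1]
            apply Real.exp_le_exp.2
            have h2 := mv_biinv (φ a) a.1 a.2⁻¹ (hφ a) h1
            have h3 : (Fintype.card Γ : ℝ) ≤ 2 * mv (φ a) := by exact_mod_cast h2
            nlinarith
          · rw [if_neg h1]
            exact (Real.exp_pos _).le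
      _ = (Fintype.card Γ : ℝ) ^ 2 * Real.exp (-(δ * Fintype.card Γ / 2)) := by
          rw [sum_const, Finset.card_univ, Fintype.card_prod, nsmul_eq_mul]
          push_cast
          ring
  obtain ⟨A, hA, hAG, hAc⟩ := exists_rG (p := p) (k := k) (by omega) G
  refine ⟨A, hA, fun a b x hx => ?_, ?_⟩
  · have h1 := hAG (coordHom p Γ (φ (a⁻¹, b))) ⟨(a⁻¹, b), rfl⟩ x hx
    convert h1 using 1
    funext i
    rw [coordHom_apply, ← map_inv, hφ]
    simp
  · rw [hAc]
    exact (h G hsig ((le_max_left _ _).trans hn) hΘ).1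

/-- permutations of the rows and of the columns -/
theorem matrices {k : ℕ} (hk : 3 ≤ k) (hkp : k ≤ p) (ρ : ℝ) (hρ0 : 0 ≤ ρ) (hρ : ρ < lam k p) :
    ∃ m₀ : ℕ, ∀ m ≥ m₀, ∃ A : Finset (Fin m × Fin m → ZMod p), APFree k A ∧
        (∀ π τ : Equiv.Perm (Fin m), ∀ x ∈ A, (fun q => x (π q.1, τ q.2)) ∈ A) ∧
        ρ ^ m ^ 2 ≤ A.card := by
  classical
  obtain ⟨δ, hδ, n₀, h⟩ := growth (p := p) hk hkp ρ hρ0 hρ
  obtain ⟨m₁, hm₁⟩ := rows_cols_small δ hδ
  refine ⟨max (n₀ + 1) m₁, fun m hm => ?_⟩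
  let φ : Equiv.Perm (Fin m) × Equiv.Perm (Fin m) →* Equiv.Perm (Fin m × Fin m) :=
    { toFun := fun q => Equiv.prodCongr q.1 q.2
      map_one' := by ext i <;> simp
      map_mul' := fun q q' => by ext i <;> simp }
  have hφ : ∀ q, φ q = Equiv.prodCongr q.1 q.2 := fun q => rfl
  set G := ((coordHom p (Fin m × Fin m)).comp φ).range with hG
  have hsig : ∀ g ∈ G, Signed g := by
    rintro g ⟨q, rfl⟩
    exact coordHom_signed _
  have hΘ : Theta G δ ≤ 1 / 5 := by
    refine (Theta_range_le φ δ hδ.le).trans ?_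
    have h1 := (sum_rows_cols m δ hδ.le).trans (hm₁ m ((le_max_right _ _).trans hm))
    refine le_trans (le_of_eq (sum_congr rfl fun a _ => ?_)) h1
    by_cases h2 : φ a ≠ 1
    · rw [if_pos h2, if_pos (show (Equiv.prodCongr a.1 a.2 : Equiv.Perm (Fin m × Fin m)) ≠ 1 from h2)]
      have h3 : ∀ i1 i2 : DecidableEq (Fin m × Fin m), @mv _ _ i1 (φ a) = @mv _ _ i2 (φ a) := by
        intro i1 i2
        rw [Subsingleton.elim i1 i2]
      rw [h3 _ (fun a b => instDecidableEqProd a b)]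
      rfl
    · rw [if_neg h2, if_neg (show ¬ (Equiv.prodCongr a.1 a.2 : Equiv.Perm (Fin m × Fin m)) ≠ 1 from h2)]
  obtain ⟨A, hA, hAG, hAc⟩ := exists_rG (p := p) (k := k) (by omega) G
  refine ⟨A, hA, fun π τ x hx => ?_, ?_⟩
  · have h1 := hAG (coordHom p (Fin m × Fin m) (φ (π⁻¹, τ⁻¹))) ⟨(π⁻¹, τ⁻¹), rfl⟩ x hx
    convert h1 using 1
    funext i
    rw [coordHom_apply, ← map_inv, hφ]
    simp only [Prod.inv_mk, inv_inv]
    rfl
  · rw [hAc]
    have hcard : Fintype.card (Fin m × Fin m) = m ^ 2 := by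
      rw [Fintype.card_prod, Fintype.card_fin, sq]
    have h1 := (h G hsig (by
      rw [hcard]
      have h2 : n₀ + 1 ≤ m := (le_max_left _ _).trans hm
      nlinarith) hΘ).1
    rw [hcard] at h1
    exact h1

end Pool.Agent.U465.AP
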