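import Pool.Agent.U465.Pat
import Pool.Agent.U465.APDefs

set_option autoImplicit false
set_option linter.unusedSectionVars false

/-! # Progression-free sets with prescribed symmetries: the construction -/

namespace Pool.Agent.U465.AP

open Finset

theorem Signed.add {p : ℕ} {ι : Type} {g : Equiv.Perm (ι → ZMod p)} (h : Signed g)
    (x y : ι → ZMod p) : g (x + y) = g x + g y := by
  obtain ⟨σ, ε, h⟩ := h
  funext i
  rw [Pi.add_apply, h, h, h, Pi.add_apply, mul_add]

theorem Signed.zero {p : ℕ} {ι : Type} {g : Equiv.Perm (ι → ZMod p)} (h : Signed g) :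
    g 0 = 0 := by
  obtain ⟨σ, ε, h⟩ := h
  funext i
  rw [h, Pi.zero_apply, mul_zero, Pi.zero_apply]

theorem Signed.nsmul {p : ℕ} {ι : Type} {g : Equiv.Perm (ι → ZMod p)} (h : Signed g) (j : ℕ)
    (x : ι → ZMod p) : g (j • x) = j • g x := by
  induction j with
  | zero => rw [zero_smul, zero_smul, h.zero]
  | succ j ih => rw [succ_nsmul, succ_nsmul, h.add, ih]

section

variable {p : ℕ} [hp : Fact p.Prime]

theorem two_ne (hp2 : p ≠ 2) : (2 : ZMod p) ≠ 0 := by
  intro h
  have h1 : ((2 : ℕ) : ZMod p) = 0 := by exact_mod_cast h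
  rw [ZMod.natCast_eq_zero_iff] at h1
  exact hp2 ((Nat.prime_dvd_prime_iff_eq hp.out Nat.prime_two).1 h1)

theorem unit_cast (e : ℤˣ) : ((e : ℤ) : ZMod p) = 1 ∨ ((e : ℤ) : ZMod p) = -1 := by
  rcases Int.units_eq_one_or e with h | h
  · left; rw [h]; simp
  · right; rw [h]; simp

/-- the letter case analysis: the letters at `i`, `σ i`, `τ i` -/
theorem letters (hp2 : p ≠ 2) {ι : Type} [DecidableEq ι] (i s t : ι) (e e' : ℤˣ)
    (w : ι → ZMod p) (b c v : ZMod p) (hb : b ≠ 0) (hc : c ≠ 0) (hbc : b ≠ c)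
    (h1 : w i + b * v = ((e : ℤ) : ZMod p) * w s) (h2 : w i + c * v = ((e' : ℤ) : ZMod p) * w t)
    (hT : (s ≠ i ∨ e ≠ 1) ∨ (t ≠ i ∨ e' ≠ 1))
    (hw1 : s = i → t = i → w i = 1)
    (hw2 : s = i → t ≠ i → w i = 0 ∧ w t = 1)
    (hw3 : s ≠ i → t = i → w i = 0 ∧ w s = 1)
    (hw4 : s ≠ i → s = t → w i = 1 ∧ w s = 0)
    (hw5 : s ≠ i → t ≠ i → s ≠ t → w i = 0 ∧ w s = 0 ∧ w t = 1) : False := by
  have h20 := two_ne hp2
  have he0 : ((e : ℤ) : ZMod p) ≠ 0 := by
    rcases unit_cast (p := p) e with h | h <;> rw [h] <;> simp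
  have he0' : ((e' : ℤ) : ZMod p) ≠ 0 := by
    rcases unit_cast (p := p) e' with h | h <;> rw [h] <;> simp
  by_cases hs : s = i
  · by_cases ht : t = i
    · have hw := hw1 hs ht
      rw [hs, hw, mul_one] at h1
      rw [ht, hw, mul_one] at h2
      have hne : e ≠ 1 ∨ e' ≠ 1 := by
        rcases hT with (h | h) | (h | h)
        · exact absurd hs h
        · exact Or.inl h
        · exact absurd ht h
        · exact Or.inr h
      rcases Int.units_eq_one_or e with h | h
      · rw [h] at h1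
        have hv : v = 0 := by
          have : b * v = 0 := by
            simp only [Units.val_one, Int.cast_one] at h1
            linear_combination h1
          exact (mul_eq_zero.1 this).resolve_left hb
        rcases hne with h' | h'
        · exact h' h
        · have he' : e' = -1 := (Int.units_eq_one_or e').resolve_left h'
          rw [he', hv] at h2
          simp only [Units.val_neg, Units.val_one, Int.cast_neg, Int.cast_one, mul_zero,
            add_zero] at h2
          apply h20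
          linear_combination h2
      · rw [h] at h1
        simp only [Units.val_neg, Units.val_one, Int.cast_neg, Int.cast_one] at h1
        have hv : v = 0 := by
          rcases Int.units_eq_one_or e' with h' | h'
          · rw [h'] at h2
            simp only [Units.val_one, Int.cast_one] at h2
            have : c * v = 0 := by linear_combination h2
            exact (mul_eq_zero.1 this).resolve_left hc
          · rw [h'] at h2
            simp only [Units.val_neg, Units.val_one, Int.cast_neg, Int.cast_one] at h2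
            have : (b - c) * v = 0 := by linear_combination h1 - h2
            exact (mul_eq_zero.1 this).resolve_left (sub_ne_zero.2 hbc)
        rw [hv] at h1
        apply h20
        linear_combination h1
    · obtain ⟨ha, hb'⟩ := hw2 hs ht
      rw [hs, ha, mul_zero, zero_add] at h1
      have hv : v = 0 := (mul_eq_zero.1 h1).resolve_left hb
      rw [ha, hb', hv, mul_zero, add_zero, mul_one] at h2
      exact he0' h2.symm
  · by_cases ht : t = i
    · obtain ⟨ha, hb'⟩ := hw3 hs ht
      rw [ht, ha, mul_zero, zero_add] at h2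
      have hv : v = 0 := (mul_eq_zero.1 h2).resolve_left hc
      rw [ha, hb', hv, mul_zero, add_zero, mul_one] at h1
      exact he0 h1.symm
    · by_cases hst : s = t
      · obtain ⟨ha, hb'⟩ := hw4 hs hst
        rw [← hst, ha, hb', mul_zero] at h2
        rw [ha, hb', mul_zero] at h1
        have hv : v = 0 := by
          have : (b - c) * v = 0 := by linear_combination h1 - h2
          exact (mul_eq_zero.1 this).resolve_left (sub_ne_zero.2 hbc)
        rw [hv, mul_zero, add_zero] at h1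
        exact one_ne_zero h1
      · obtain ⟨ha, hb', hc'⟩ := hw5 hs ht hst
        rw [ha, hb', mul_zero, zero_add] at h1
        have hv : v = 0 := (mul_eq_zero.1 h1).resolve_left hb
        rw [ha, hc', hv, mul_zero, add_zero, mul_one] at h2
        exact he0' h2.symm

theorem r_bdd (k n : ℕ) :
    BddAbove {m : ℕ | ∃ A : Finset (Fin n → ZMod p), APFree k A ∧ A.card = m} := by
  refine ⟨Fintype.card (Fin n → ZMod p), ?_⟩
  rintro m ⟨B, _, rfl⟩
  exact Finset.card_le_univ B

theorem exists_r {k : ℕ} (hk : 0 < k) (n : ℕ) :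
    ∃ A : Finset (Fin n → ZMod p), APFree k A ∧ A.card = r k p n := by
  have h1 : {m : ℕ | ∃ A : Finset (Fin n → ZMod p), APFree k A ∧ A.card = m}.Nonempty :=
    ⟨0, ∅, fun x y h => absurd (h 0 hk) (by simp), rfl⟩
  exact Nat.sSup_mem h1 (r_bdd k n)

theorem card_le_rG {k : ℕ} {ι : Type} [Fintype ι] (G : Subgroup (Equiv.Perm (ι → ZMod p)))
    (A : Finset (ι → ZMod p)) (hA : APFree k A) (hG : ∀ g ∈ G, ∀ x ∈ A, g x ∈ A) :
    A.card ≤ rG k G := by
  classical
  unfold rG
  apply le_csSup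
  · refine ⟨Fintype.card (ι → ZMod p), ?_⟩
    rintro m ⟨B, _, _, rfl⟩
    exact Finset.card_le_univ B
  · exact ⟨A, hA, hG, rfl⟩

theorem supp_one {ι : Type} [Fintype ι] : supp (1 : Equiv.Perm (ι → ZMod p)) = ∅ := by
  ext i
  simp [supp]

theorem mem_supp {ι : Type} [Fintype ι] {g : Equiv.Perm (ι → ZMod p)} {i : ι} :
    i ∈ supp g ↔ ∃ x, g x i ≠ x i := by
  simp [supp]

theorem inv_app {α : Type} (g : Equiv.Perm α) (x : α) : g⁻¹ (g x) = x := by
  rw [← Equiv.Perm.mul_apply, inv_mul_cancel, Equiv.Perm.one_apply]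

theorem app_inv {α : Type} (g : Equiv.Perm α) (x : α) : g (g⁻¹ x) = x := by
  rw [← Equiv.Perm.mul_apply, mul_inv_cancel, Equiv.Perm.one_apply]

theorem one_signed {ι : Type} : Signed (1 : Equiv.Perm (ι → ZMod p)) :=
  ⟨1, fun _ => 1, fun x i => by simp⟩

open scoped Classical in
/-- the sum over the pairs -/
theorem sum_pairs {ι : Type} [Fintype ι] (G : Subgroup (Equiv.Perm (ι → ZMod p))) (δ : ℝ)
    (hδ : 0 ≤ δ) (hΘ : Theta G δ ≤ 1 / 5) :
    ∑ e ∈ (univ : Finset (Equiv.Perm (ι → ZMod p) × Equiv.Perm (ι → ZMod p))).filter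
      (fun e => e.1 ∈ G ∧ e.2 ∈ G ∧ ¬ (e.1 = 1 ∧ e.2 = 1)),
      Real.exp (-(2 * δ * (supp e.1 ∪ supp e.2).card)) < 1 / 2 := by
  set F : Equiv.Perm (ι → ZMod p) → ℝ := fun g => if g ∈ G then Real.exp (-(δ * (supp g).card)) else 0
    with hF
  have hF0 : ∀ g, 0 ≤ F g := by
    intro g
    simp only [hF]
    split_ifs
    · exact (Real.exp_pos _).le
    · exact le_refl _
  have hsum : ∑ g, F g = 1 + Theta G δ := by
    have h1 : ∀ g, F g = (if g = 1 then 1 else 0) +
        if g ∈ G ∧ g ≠ 1 then Real.exp (-(δ * (supp g).card)) else 0 := by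
      intro g
      by_cases hg1 : g = 1
      · rw [hg1]
        simp [hF, supp_one, one_mem]
      · simp [hF, hg1]
    rw [sum_congr rfl fun g _ => h1 g, sum_add_distrib, sum_ite_eq' univ (1 : Equiv.Perm (ι → ZMod p)),
      if_pos (mem_univ _)]
    rfl
  have hprod : ∑ e : Equiv.Perm (ι → ZMod p) × Equiv.Perm (ι → ZMod p), F e.1 * F e.2 =
      (1 + Theta G δ) ^ 2 := by
    rw [← hsum, sq, sum_mul_sum, ← univ_product_univ, sum_product]
  have hle : ∑ e ∈ (univ : Finset (Equiv.Perm (ι → ZMod p) × Equiv.Perm (ι → ZMod p))).filter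
      (fun e => e.1 ∈ G ∧ e.2 ∈ G ∧ ¬ (e.1 = 1 ∧ e.2 = 1)),
      Real.exp (-(2 * δ * (supp e.1 ∪ supp e.2).card)) ≤
      (∑ e : Equiv.Perm (ι → ZMod p) × Equiv.Perm (ι → ZMod p), F e.1 * F e.2) - 1 := by
    have h11 : F 1 * F 1 = 1 := by
      simp [hF, supp_one, one_mem]
    have h2 : ∑ e : Equiv.Perm (ι → ZMod p) × Equiv.Perm (ι → ZMod p), F e.1 * F e.2 - 1 =
        ∑ e ∈ (univ : Finset (Equiv.Perm (ι → ZMod p) × Equiv.Perm (ι → ZMod p))).erase (1, 1),
          F e.1 * F e.2 := by
      rw [← Finset.add_sum_erase univ _ (mem_univ ((1 : Equiv.Perm (ι → ZMod p)),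
        (1 : Equiv.Perm (ι → ZMod p))))]
      simp only [h11]
      ring
    rw [h2]
    refine (sum_le_sum (g := fun e => F e.1 * F e.2) ?_).trans
      (sum_le_sum_of_subset_of_nonneg ?_ fun e _ _ => mul_nonneg (hF0 _) (hF0 _))
    · intro e he
      obtain ⟨h1, h2, _⟩ := (mem_filter.1 he).2
      simp only [hF, if_pos h1, if_pos h2]
      rw [← Real.exp_add]
      apply Real.exp_le_exp.2
      have h3 : (supp e.1).card ≤ (supp e.1 ∪ supp e.2).card := card_le_card subset_union_left
      have h4 : (supp e.2).card ≤ (supp e.1 ∪ supp e.2).card := card_le_card subset_union_right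
      have h3' : ((supp e.1).card : ℝ) ≤ (supp e.1 ∪ supp e.2).card := by exact_mod_cast h3
      have h4' : ((supp e.2).card : ℝ) ≤ (supp e.1 ∪ supp e.2).card := by exact_mod_cast h4
      nlinarith
    · intro e he
      obtain ⟨_, _, h3⟩ := (mem_filter.1 he).2
      refine mem_erase.2 ⟨fun h => h3 ?_, mem_univ _⟩
      rw [h]
      exact ⟨rfl, rfl⟩
  have hΘ0 : 0 ≤ Theta G δ := by
    unfold Theta
    refine sum_nonneg fun g _ => ?_
    split_ifs
    · exact (Real.exp_pos _).le
    · exact le_refl _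
  rw [hprod] at hle
  nlinarith

/-- the colour pattern for a test -/
def tgt {ι : Type} [DecidableEq ι] {Q : ℕ} (c0 c1 : Fin Q) (i s t j : ι) : Fin Q :=
  if s = i then (if t = i then c1 else if j = t then c1 else c0)
  else if t = i then (if j = s then c1 else c0)
  else if s = t then (if j = i then c1 else c0)
  else (if j = t then c1 else c0)

open scoped Classical in
/-- **The construction.** -/
theorem main (hp2 : p ≠ 2) {k : ℕ} (hk : 3 ≤ k) (hkp : k ≤ p) {ι : Type} [Fintype ι]
    (G : Subgroup (Equiv.Perm (ι → ZMod p))) (hG : ∀ g ∈ G, Signed g) (Q : ℕ) (hQ : 2 ≤ Q)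
    (hΘ : Theta G (1 / (18 * (Q : ℝ) ^ 3)) ≤ 1 / 5) :
    ∃ m, m ≤ Fintype.card ι ∧ Q * (Fintype.card ι - m) ≤ 4 * Fintype.card ι ∧
      r k p m ≤ rG k G := by
  have hQ0 : (0 : ℝ) < Q := by exact_mod_cast (by omega : 0 < Q)
  -- coordinates of the group elements
  have hch : ∀ g : Equiv.Perm (ι → ZMod p), ∃ (σ : Equiv.Perm ι) (ε : ι → ℤˣ),
      g ∈ G → ∀ x i, g x i = ((ε i : ℤ) : ZMod p) * x (σ i) := by
    intro g
    by_cases hg : g ∈ G
    · obtain ⟨σ, ε, h⟩ := hG g hg
      exact ⟨σ, ε, fun _ => h⟩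
    · exact ⟨1, fun _ => 1, fun h => absurd h hg⟩
  choose σ ε hσ using hch
  let c0 : Fin Q := ⟨0, by omega⟩
  let c1 : Fin Q := ⟨1, by omega⟩
  have hc01 : c0 ≠ c1 := by
    intro h
    have := congrArg Fin.val h
    simp [c0, c1] at this
  set tests := (univ : Finset (Equiv.Perm (ι → ZMod p) × Equiv.Perm (ι → ZMod p))).filter
      (fun e => e.1 ∈ G ∧ e.2 ∈ G ∧ ¬ (e.1 = 1 ∧ e.2 = 1)) with htests
  have hsum : ∑ e ∈ tests, Real.exp (-((supp e.1 ∪ supp e.2).card / (9 * (Q : ℝ) ^ 3))) < 1 / 2 := by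
    have h1 := sum_pairs G (1 / (18 * (Q : ℝ) ^ 3)) (by positivity) hΘ
    refine lt_of_eq_of_lt (sum_congr rfl fun e _ => ?_) h1
    congr 2
    field_simp
    ring
  obtain ⟨c, hc, hcard⟩ := exists_pattern tests Q hQ c0 c1 (fun e => σ e.1) (fun e => σ e.2)
    (fun e => supp e.1 ∪ supp e.2) (fun e i j => tgt c0 c1 i (σ e.1 i) (σ e.2 i) j) hsum
  -- the fixed coordinates
  let W : ι → Prop := fun i => c i = c0 ∨ c i = c1
  let w : ι → ZMod p := fun i => if c i = c1 then 1 else 0
  have hWcard : Fintype.card {i // ¬ W i} =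
      Fintype.card ι - (univ.filter fun i => c i = c0 ∨ c i = c1).card := by
    rw [Fintype.card_subtype_compl, Fintype.card_subtype]
  have hWle : (univ.filter fun i => c i = c0 ∨ c i = c1).card ≤ Fintype.card ι := card_le_univ _
  obtain ⟨A₀, hA₀, hA₀c⟩ := exists_r (p := p) (k := k) (by omega) (Fintype.card {i // ¬ W i})
  let e : {i // ¬ W i} ≃ Fin (Fintype.card {i // ¬ W i}) := Fintype.equivFin _
  let ext : (Fin (Fintype.card {i // ¬ W i}) → ZMod p) → ι → ZMod p :=
    fun z i => if h : W i then w i else z (e ⟨i, h⟩)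
  have hextW : ∀ z i, W i → ext z i = w i := fun z i h => dif_pos h
  have hextN : ∀ z i (h : ¬ W i), ext z i = z (e ⟨i, h⟩) := fun z i h => dif_neg h
  have hextinj : Function.Injective ext := by
    intro z z' h
    funext j
    have h1 := congrFun h (e.symm j).1
    rw [hextN z _ (e.symm j).2, hextN z' _ (e.symm j).2] at h1
    have h2 : e ⟨(e.symm j).1, (e.symm j).2⟩ = j := by
      rw [Subtype.coe_eta, Equiv.apply_symm_apply]
    rwa [h2] at h1
  let B : Finset (ι → ZMod p) := A₀.image ext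
  have hBcard : B.card = r k p (Fintype.card {i // ¬ W i}) := by
    rw [card_image_of_injective _ hextinj, hA₀c]
  have hBW : ∀ x ∈ B, ∀ i, W i → x i = w i := by
    intro x hx i hi
    obtain ⟨z, _, rfl⟩ := mem_image.1 hx
    exact hextW z i hi
  have hB : APFree k B := by
    intro x y h
    -- on `W`
    have hyW : ∀ i, W i → y i = 0 := by
      intro i hi
      have h0 := hBW _ (h 0 (by omega)) i hi
      have h1 := hBW _ (h 1 (by omega)) i hi
      simp only [zero_smul, one_smul, Pi.add_apply, Pi.zero_apply, add_zero] at h0 h1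
      rw [h0] at h1
      simpa using h1
    have hyN : (fun j => y (e.symm j).1) = 0 := by
      apply hA₀ (fun j => x (e.symm j).1)
      intro j hj
      obtain ⟨z, hz, hzx⟩ := mem_image.1 (h j hj)
      convert hz using 1
      funext i
      have h1 := congrFun hzx (e.symm i).1
      rw [hextN z _ (e.symm i).2, Subtype.coe_eta, Equiv.apply_symm_apply] at h1
      rw [h1]
      rfl
    funext i
    by_cases hi : W i
    · exact hyW i hi
    · have h1 := congrFun hyN (e ⟨i, hi⟩)
      simp only [Equiv.symm_apply_apply] at h1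
      exact h1
  -- the invariant set
  let A : Finset (ι → ZMod p) := univ.filter fun y => ∃ g ∈ G, ∃ x ∈ B, g x = y
  have hBA : B ⊆ A := fun x hx => mem_filter.2 ⟨mem_univ _, 1, one_mem _, x, hx, rfl⟩
  have hinv : ∀ g ∈ G, ∀ x ∈ A, g x ∈ A := by
    intro g hg x hx
    obtain ⟨h, hh, b, hb, rfl⟩ := (mem_filter.1 hx).2
    exact mem_filter.2 ⟨mem_univ _, g * h, mul_mem hg hh, b, hb, rfl⟩
  have hAfree : APFree k A := by
    intro x y hxy
    have hex : ∀ j : ℕ, ∃ (g : Equiv.Perm (ι → ZMod p)) (b : ι → ZMod p), j < k →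
        g ∈ G ∧ b ∈ B ∧ g b = x + j • y := by
      intro j
      by_cases hj : j < k
      · obtain ⟨g, hg, b, hb, h⟩ := (mem_filter.1 (hxy j hj)).2
        exact ⟨g, b, fun _ => ⟨hg, hb, h⟩⟩
      · exact ⟨1, 0, fun h => absurd h hj⟩
    choose g b hgb using hex
    obtain ⟨hg0, hb0, hgb0⟩ := hgb 0 (by omega)
    have hs0 : Signed (g 0)⁻¹ := hG _ (inv_mem hg0)
    have htr : ∀ j : ℕ, (g 0)⁻¹ (x + j • y) = (g 0)⁻¹ x + j • (g 0)⁻¹ y := by
      intro j
      rw [hs0.add, hs0.nsmul]
    by_cases hall : ∀ j < k, g j = g 0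
    · have h1 : (g 0)⁻¹ y = 0 := by
        apply hB ((g 0)⁻¹ x)
        intro j hj
        obtain ⟨_, hbj, hgbj⟩ := hgb j hj
        rw [← htr, ← hgbj, hall j hj, inv_app]
        exact hbj
      have h2 : y = g 0 ((g 0)⁻¹ y) := by rw [app_inv]
      rw [h2, h1, (hG _ hg0).zero]
    · exfalso
      push Not at hall
      obtain ⟨c', hc'k, hc'⟩ := hall
      have hc'0 : c' ≠ 0 := fun h => hc' (by rw [h])
      obtain ⟨b', hb'k, hb'0, hb'c⟩ : ∃ b', b' < k ∧ b' ≠ 0 ∧ b' ≠ c' := by
        by_cases h : c' = 1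
        · exact ⟨2, by omega, by omega, by omega⟩
        · exact ⟨1, by omega, by omega, fun h' => h h'.symm⟩
      obtain ⟨hg1, hb1, hgb1⟩ := hgb b' hb'k
      obtain ⟨hg2, hb2, hgb2⟩ := hgb c' hc'k
      have hmem : ((g 0)⁻¹ * g b', (g 0)⁻¹ * g c') ∈ tests := by
        refine mem_filter.2 ⟨mem_univ _, mul_mem (inv_mem hg0) hg1, mul_mem (inv_mem hg0) hg2, ?_⟩
        rintro ⟨_, h⟩
        exact hc' (inv_mul_eq_one.1 h).symm
      obtain ⟨i, hiT, hi0, hi1, hi2⟩ := hc _ hmem
      set g₁ := (g 0)⁻¹ * g b' with hg₁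
      set g₂ := (g 0)⁻¹ * g c' with hg₂
      have hg₁G : g₁ ∈ G := mul_mem (inv_mem hg0) hg1
      have hg₂G : g₂ ∈ G := mul_mem (inv_mem hg0) hg2
      simp only at hi0 hi1 hi2
      have htgt : ∀ j, c j = tgt c0 c1 i (σ g₁ i) (σ g₂ i) j → W j := by
        intro j hj
        simp only [tgt] at hj
        split_ifs at hj
        all_goals first | exact Or.inl hj | exact Or.inr hj
      have hwt : ∀ j, c j = tgt c0 c1 i (σ g₁ i) (σ g₂ i) j →
          w j = if tgt c0 c1 i (σ g₁ i) (σ g₂ i) j = c1 then 1 else 0 := by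
        intro j hj
        show (if c j = c1 then (1 : ZMod p) else 0) = _
        rw [hj]
      have e0 : (g 0)⁻¹ x = b 0 := by
        rw [zero_smul, add_zero] at hgb0
        rw [← hgb0, inv_app]
      have e1 : (g 0)⁻¹ x + b' • (g 0)⁻¹ y = g₁ (b b') := by
        rw [← htr, ← hgb1, hg₁, Equiv.Perm.mul_apply]
      have e2 : (g 0)⁻¹ x + c' • (g 0)⁻¹ y = g₂ (b c') := by
        rw [← htr, ← hgb2, hg₂, Equiv.Perm.mul_apply]
      have r1 : w i + (b' : ZMod p) * ((g 0)⁻¹ y) i = ((ε g₁ i : ℤ) : ZMod p) * w (σ g₁ i) := by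
        have h1 := congrFun e1 i
        rw [hσ g₁ hg₁G, hBW _ hb1 _ (htgt _ hi1), e0, Pi.add_apply, hBW _ hb0 _ (htgt _ hi0),
          Pi.smul_apply, nsmul_eq_mul] at h1
        exact h1
      have r2 : w i + (c' : ZMod p) * ((g 0)⁻¹ y) i = ((ε g₂ i : ℤ) : ZMod p) * w (σ g₂ i) := by
        have h1 := congrFun e2 i
        rw [hσ g₂ hg₂G, hBW _ hb2 _ (htgt _ hi2), e0, Pi.add_apply, hBW _ hb0 _ (htgt _ hi0),
          Pi.smul_apply, nsmul_eq_mul] at h1
        exact h1
      have hcast : ∀ n : ℕ, n ≠ 0 → n < p → (n : ZMod p) ≠ 0 := by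
        intro n h0 h1 h2
        rw [ZMod.natCast_eq_zero_iff] at h2
        exact absurd (Nat.le_of_dvd (Nat.pos_of_ne_zero h0) h2) (by omega)
      have hbc : (b' : ZMod p) ≠ c' := by
        intro h
        rw [ZMod.natCast_eq_natCast_iff] at h
        have h3 := h.eq_of_lt_of_lt (by omega) (by omega)
        exact hb'c h3
      have hsupp : ∀ g ∈ G, i ∈ supp g → σ g i ≠ i ∨ ε g i ≠ 1 := by
        intro g hg hi
        by_contra hcon
        push Not at hcon
        obtain ⟨z, hz⟩ := mem_supp.1 hi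
        apply hz
        rw [hσ g hg, hcon.1, hcon.2]
        simp
      refine letters hp2 i (σ g₁ i) (σ g₂ i) (ε g₁ i) (ε g₂ i) w b' c' (((g 0)⁻¹ y) i)
        (hcast _ hb'0 (by omega)) (hcast _ hc'0 (by omega)) hbc r1 r2 ?_ ?_ ?_ ?_ ?_ ?_
      · rcases mem_union.1 hiT with h | h
        · exact Or.inl (hsupp _ hg₁G h)
        · exact Or.inr (hsupp _ hg₂G h)
      · intro hs ht
        rw [hwt i hi0, if_pos]
        simp only [tgt, if_pos hs, if_pos ht]
      · intro hs ht
        rw [hwt i hi0, hwt _ hi2]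
        refine ⟨?_, ?_⟩
        · rw [if_neg]
          simp only [tgt, if_pos hs, if_neg ht, if_neg (Ne.symm ht)]
          exact hc01
        · rw [if_pos]
          simp only [tgt, if_pos hs, if_neg ht, if_pos]
      · intro hs ht
        rw [hwt i hi0, hwt _ hi1]
        refine ⟨?_, ?_⟩
        · rw [if_neg]
          simp only [tgt, if_neg hs, if_pos ht, if_neg (Ne.symm hs)]
          exact hc01
        · rw [if_pos]
          simp only [tgt, if_neg hs, if_pos ht, if_pos]
      · intro hs hst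
        have ht : ¬ σ g₂ i = i := fun h => hs (hst.trans h)
        rw [hwt i hi0, hwt _ hi1]
        refine ⟨?_, ?_⟩
        · rw [if_pos]
          simp only [tgt, if_neg hs, if_neg ht, if_pos hst, if_pos]
        · rw [if_neg]
          simp only [tgt, if_neg hs, if_neg ht, if_pos hst]
          exact hc01
      · intro hs ht hst
        rw [hwt i hi0, hwt _ hi1, hwt _ hi2]
        refine ⟨?_, ?_, ?_⟩
        · rw [if_neg]
          simp only [tgt, if_neg hs, if_neg ht, if_neg hst, if_neg (Ne.symm ht)]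
          exact hc01
        · rw [if_neg]
          simp only [tgt, if_neg hs, if_neg ht, if_neg hst]
          exact hc01
        · rw [if_pos]
          simp only [tgt, if_neg hs, if_neg ht, if_neg hst, if_pos]
  refine ⟨Fintype.card {i // ¬ W i}, ?_, ?_, ?_⟩
  · rw [hWcard]
    exact Nat.sub_le _ _
  · rw [hWcard, Nat.sub_sub_self hWle]
    exact hcard
  · rw [← hBcard]
    exact (card_le_card hBA).trans (card_le_rG G A hAfree hinv)

end

end Pool.Agent.U465.AP
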