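import Pool.Agent.U465.CoMain
import Pool.Agent.U465.Ex

set_option autoImplicit false
set_option linter.unusedSectionVars false

/-! # Corner-free sets with prescribed symmetries: consequences -/

namespace Pool.Agent.U465.Co

open Finset

variable {H : Type} [AddCommGroup H] [Finite H]

theorem card_le_r {n : ℕ} {A : Finset ((Fin n → H) × (Fin n → H))} (hA : CornerFree A) :
    A.card ≤ r H n := le_csSup (r_bdd n) ⟨A, hA, rfl⟩

theorem r_pos (n : ℕ) : 1 ≤ r H n := by
  have h : CornerFree ({0} : Finset ((Fin n → H) × (Fin n → H))) := by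
    intro x y z h0 h1 h2
    rw [mem_singleton] at h0 h1
    have e0 := congrArg Prod.snd h0
    have e1 := congrArg Prod.snd h1
    simp only [Prod.snd_zero] at e0 e1
    rw [e0, zero_add] at e1
    exact e1
  have := card_le_r h
  simpa using this

theorem r_mul (m n : ℕ) : r H m * r H n ≤ r H (m + n) := by
  classical
  obtain ⟨A, hA, hAc⟩ := exists_r (H := H) m
  obtain ⟨B, hB, hBc⟩ := exists_r (H := H) n
  let f : ((Fin m → H) × (Fin m → H)) × ((Fin n → H) × (Fin n → H)) →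
      (Fin (m + n) → H) × (Fin (m + n) → H) :=
    fun q => (Fin.append q.1.1 q.2.1, Fin.append q.1.2 q.2.2)
  have hl : ∀ (u : Fin m → H) (v : Fin n → H) i, Fin.append u v (Fin.castAdd n i) = u i :=
    fun u v i => Fin.append_left _ _ _
  have hr : ∀ (u : Fin m → H) (v : Fin n → H) i, Fin.append u v (Fin.natAdd m i) = v i :=
    fun u v i => Fin.append_right _ _ _
  have hap : ∀ (u u' : Fin m → H) (v v' : Fin n → H), Fin.append u v = Fin.append u' v' →
      u = u' ∧ v = v' := by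
    intro u u' v v' h
    refine ⟨funext fun i => ?_, funext fun i => ?_⟩
    · rw [← hl u v i, ← hl u' v' i, h]
    · rw [← hr u v i, ← hr u' v' i, h]
  have hf : Function.Injective f := by
    intro q q' h
    obtain ⟨h1, h2⟩ := hap _ _ _ _ (congrArg Prod.fst h)
    obtain ⟨h3, h4⟩ := hap _ _ _ _ (congrArg Prod.snd h)
    exact Prod.ext (Prod.ext h1 h3) (Prod.ext h2 h4)
  have hC : CornerFree ((A ×ˢ B).image f) := by
    have key : ∀ x y : Fin (m + n) → H, (x, y) ∈ (A ×ˢ B).image f →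
        ((fun i => x (Fin.castAdd n i)), fun i => y (Fin.castAdd n i)) ∈ A ∧
        ((fun i => x (Fin.natAdd m i)), fun i => y (Fin.natAdd m i)) ∈ B := by
      intro x y h
      obtain ⟨q, hq, hqx⟩ := mem_image.1 h
      rw [mem_product] at hq
      have e1 := congrArg Prod.fst hqx
      have e2 := congrArg Prod.snd hqx
      simp only [f] at e1 e2
      refine ⟨?_, ?_⟩
      · have : ((fun i => x (Fin.castAdd n i)), fun i => y (Fin.castAdd n i)) = q.1 := by
          refine Prod.ext (funext fun i => ?_) (funext fun i => ?_)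
          · simp only [← e1, hl]
          · simp only [← e2, hl]
        rw [this]
        exact hq.1
      · have : ((fun i => x (Fin.natAdd m i)), fun i => y (Fin.natAdd m i)) = q.2 := by
          refine Prod.ext (funext fun i => ?_) (funext fun i => ?_)
          · simp only [← e1, hr]
          · simp only [← e2, hr]
        rw [this]
        exact hq.2
    intro x y z h0 h1 h2
    obtain ⟨a0, b0⟩ := key _ _ h0
    obtain ⟨a1, b1⟩ := key _ _ h1
    obtain ⟨a2, b2⟩ := key _ _ h2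
    have k1 := hA (fun i => x (Fin.castAdd n i)) (fun i => y (Fin.castAdd n i))
      (fun i => z (Fin.castAdd n i)) a0 a1 a2
    have k2 := hB (fun i => x (Fin.natAdd m i)) (fun i => y (Fin.natAdd m i))
      (fun i => z (Fin.natAdd m i)) b0 b1 b2
    funext i
    refine Fin.addCases (fun i => ?_) (fun i => ?_) i
    · exact congrFun k1 i
    · exact congrFun k2 i
  have h3 := card_le_r hC
  rw [card_image_of_injective _ hf, card_product, hAc, hBc] at h3
  exact h3

theorem r_pow (m q : ℕ) : r H m ^ q ≤ r H (m * q) := by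
  induction q with
  | zero =>
    rw [pow_zero]
    exact r_pos _
  | succ q ih =>
    rw [pow_succ, Nat.mul_succ]
    exact (Nat.mul_le_mul_right _ ih).trans (r_mul _ _)

theorem r_mono {m n : ℕ} (h : m ≤ n) : r H m ≤ r H n := by
  obtain ⟨s, rfl⟩ := Nat.exists_eq_add_of_le h
  calc r H m = r H m * 1 := (mul_one _).symm
    _ ≤ r H m * r H s := Nat.mul_le_mul_left _ (r_pos s)
    _ ≤ _ := r_mul m s

theorem r_le (n : ℕ) : r H n ≤ (Nat.card H ^ 2) ^ n := by
  classical
  have := Fintype.ofFinite H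
  unfold r
  apply csSup_le'
  rintro m ⟨B, _, rfl⟩
  calc B.card ≤ Fintype.card ((Fin n → H) × (Fin n → H)) := Finset.card_le_univ B
    _ = (Nat.card H ^ 2) ^ n := by
      rw [Fintype.card_prod, Fintype.card_fun, Fintype.card_fin, Nat.card_eq_fintype_card]
      ring

theorem r_succ_le (m : ℕ) : r H (m + 1) ≤ Nat.card H ^ 2 * r H m := by
  classical
  have := Fintype.ofFinite H
  obtain ⟨A, hA, hAc⟩ := exists_r (H := H) (m + 1)
  rw [← hAc, Finset.card_eq_sum_card_fiberwise (s := A) (t := (univ : Finset (H × H)))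
    (f := fun q => (q.1 0, q.2 0)) (fun _ _ => mem_coe.2 (mem_univ _))]
  calc _ ≤ ∑ a : H × H, r H m := by
        refine sum_le_sum fun a _ => ?_
        have hinj : Set.InjOn (fun q : (Fin (m + 1) → H) × (Fin (m + 1) → H) =>
            (Fin.tail q.1, Fin.tail q.2)) (A.filter fun q => (q.1 0, q.2 0) = a) := by
          intro q hq q' hq' h
          have h1 := (mem_filter.1 hq).2
          have h2 := (mem_filter.1 hq').2
          have h3 := h1.trans h2.symm
          refine Prod.ext (funext fun i => ?_) (funext fun i => ?_)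
          · refine Fin.cases ?_ (fun i => ?_) i
            · exact congrArg Prod.fst h3
            · exact congrFun (congrArg Prod.fst h) i
          · refine Fin.cases ?_ (fun i => ?_) i
            · exact congrArg Prod.snd h3
            · exact congrFun (congrArg Prod.snd h) i
        rw [← card_image_of_injOn hinj]
        apply card_le_r
        have key : ∀ x y : Fin m → H, (x, y) ∈ (A.filter fun q => (q.1 0, q.2 0) = a).image
            (fun q : (Fin (m + 1) → H) × (Fin (m + 1) → H) => (Fin.tail q.1, Fin.tail q.2)) →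
            ((Fin.cons a.1 x : Fin (m + 1) → H), (Fin.cons a.2 y : Fin (m + 1) → H)) ∈ A := by
          intro x y h
          obtain ⟨q, hq, hqx⟩ := mem_image.1 h
          obtain ⟨hqA, hq0⟩ := mem_filter.1 hq
          have e1 := congrArg Prod.fst hqx
          have e2 := congrArg Prod.snd hqx
          have e3 := congrArg Prod.fst hq0
          have e4 := congrArg Prod.snd hq0
          simp only at e1 e2 e3 e4
          have : q = ((Fin.cons a.1 x : Fin (m + 1) → H), (Fin.cons a.2 y : Fin (m + 1) → H)) := by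
            refine Prod.ext ?_ ?_
            · rw [← e1, ← e3]
              exact (Fin.cons_self_tail q.1).symm
            · rw [← e2, ← e4]
              exact (Fin.cons_self_tail q.2).symm
          rwa [← this]
        intro x y z h0 h1 h2
        have k0 := key _ _ h0
        have k1 := key _ _ h1
        have k2 := key _ _ h2
        have l1 : (Fin.cons a.2 (y + z) : Fin (m + 1) → H) =
            (Fin.cons a.2 y : Fin (m + 1) → H) + (Fin.cons 0 z : Fin (m + 1) → H) := by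
          funext i
          refine Fin.cases ?_ (fun i => ?_) i <;> simp
        have l2 : (Fin.cons a.1 (x + z) : Fin (m + 1) → H) =
            (Fin.cons a.1 x : Fin (m + 1) → H) + (Fin.cons 0 z : Fin (m + 1) → H) := by
          funext i
          refine Fin.cases ?_ (fun i => ?_) i <;> simp
        rw [l1] at k1
        rw [l2] at k2
        have := hA _ _ _ k0 k1 k2
        funext i
        have h3 := congrFun this i.succ
        simpa using h3
    _ = Nat.card H ^ 2 * r H m := by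
        rw [sum_const, Finset.card_univ, Fintype.card_prod, smul_eq_mul,
          Nat.card_eq_fintype_card, sq]

theorem r_add_le (m j : ℕ) : r H (m + j) ≤ (Nat.card H ^ 2) ^ j * r H m := by
  induction j with
  | zero => simp
  | succ j ih =>
    calc r H (m + (j + 1)) ≤ Nat.card H ^ 2 * r H (m + j) := r_succ_le _
      _ ≤ Nat.card H ^ 2 * ((Nat.card H ^ 2) ^ j * r H m) := Nat.mul_le_mul_left _ ih
      _ = _ := by ring

theorem lam_bdd :
    BddAbove (Set.range fun n : ℕ => (r H (n + 1) : ℝ) ^ (1 / ((n : ℝ) + 1))) := by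
  refine ⟨((Nat.card H ^ 2 : ℕ) : ℝ), ?_⟩
  rintro _ ⟨m, rfl⟩
  have h1 : (r H (m + 1) : ℝ) ≤ ((Nat.card H ^ 2 : ℕ) : ℝ) ^ (m + 1) := by
    exact_mod_cast r_le (H := H) (m + 1)
  have h2 : (0 : ℝ) ≤ (r H (m + 1) : ℝ) := by positivity
  calc (r H (m + 1) : ℝ) ^ (1 / ((m : ℝ) + 1))
      ≤ (((Nat.card H ^ 2 : ℕ) : ℝ) ^ (m + 1)) ^ (1 / ((m : ℝ) + 1)) :=
        Real.rpow_le_rpow h2 h1 (by positivity)
    _ = ((Nat.card H ^ 2 : ℕ) : ℝ) := by
        rw [← Real.rpow_natCast, ← Real.rpow_mul (by positivity)]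
        push_cast
        rw [mul_one_div_cancel (by positivity), Real.rpow_one]

theorem r_le_lam (n : ℕ) : (r H n : ℝ) ≤ lam H ^ n := by
  rcases Nat.eq_zero_or_pos n with h | h
  · subst h
    rw [pow_zero]
    have := r_le (H := H) 0
    rw [pow_zero] at this
    exact_mod_cast this
  · obtain ⟨m, rfl⟩ : ∃ m, n = m + 1 := ⟨n - 1, by omega⟩
    have h1 : (r H (m + 1) : ℝ) ^ (1 / ((m : ℝ) + 1)) ≤ lam H := le_ciSup lam_bdd m
    have h2 : (0 : ℝ) ≤ (r H (m + 1) : ℝ) := by positivity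
    calc (r H (m + 1) : ℝ) = ((r H (m + 1) : ℝ) ^ (1 / ((m : ℝ) + 1))) ^ (m + 1) := by
          rw [← Real.rpow_natCast, ← Real.rpow_mul h2]
          push_cast
          rw [one_div_mul_cancel (by positivity), Real.rpow_one]
      _ ≤ lam H ^ (m + 1) := pow_le_pow_left₀ (by positivity) h1 _

theorem lam_ge [Nontrivial H] : 2 ≤ lam H := by
  classical
  obtain ⟨a, ha⟩ := exists_ne (0 : H)
  have h : CornerFree ({((fun _ => 0), (fun _ => 0)), ((fun _ => a), (fun _ => 0))} :
      Finset ((Fin 1 → H) × (Fin 1 → H))) := by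
    intro x y z h0 h1 h2
    have hev : ∀ q : (Fin 1 → H) × (Fin 1 → H),
        q ∈ ({((fun _ => 0), (fun _ => 0)), ((fun _ => a), (fun _ => 0))} :
          Finset ((Fin 1 → H) × (Fin 1 → H))) → q.2 = 0 := by
      intro q hq
      simp only [mem_insert, mem_singleton] at hq
      rcases hq with h | h <;> rw [h] <;> rfl
    have e0 := hev _ h0
    have e1 := hev _ h1
    simp only at e0 e1
    rw [e0, zero_add] at e1
    exact e1
  have h1 := card_le_r h
  rw [card_pair (by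
    intro h
    have := congrFun (congrArg Prod.fst h) 0
    exact ha this.symm)] at h1
  have h2 : (r H (0 + 1) : ℝ) ^ (1 / (((0 : ℕ) : ℝ) + 1)) ≤ lam H := le_ciSup lam_bdd 0
  rw [Nat.cast_zero, zero_add, zero_add, div_one, Real.rpow_one] at h2
  have h3 : (2 : ℝ) ≤ r H 1 := by exact_mod_cast h1
  linarith

/-- `r(n) ≥ ρ^n` for `ρ < λ` and large `n` -/
theorem r_ge (ρ : ℝ) (h1 : 1 ≤ ρ) (h2 : ρ < lam H) :
    ∃ n₀ : ℕ, ∀ n ≥ n₀, ρ ^ n ≤ (r H n : ℝ) := by
  obtain ⟨ρ', hρ1, hρ2⟩ := exists_between h2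
  obtain ⟨m, hm⟩ := exists_lt_of_lt_ciSup (show ρ' < ⨆ n : ℕ, (r H (n + 1) : ℝ) ^
    (1 / ((n : ℝ) + 1)) from hρ2)
  have hρ'1 : 1 < ρ' := lt_of_le_of_lt h1 hρ1
  have hm' : ρ' ^ (m + 1) ≤ r H (m + 1) := by
    have h2 : (0 : ℝ) ≤ (r H (m + 1) : ℝ) := by positivity
    calc ρ' ^ (m + 1) ≤ ((r H (m + 1) : ℝ) ^ (1 / ((m : ℝ) + 1))) ^ (m + 1) :=
          pow_le_pow_left₀ (by linarith) hm.le _
      _ = r H (m + 1) := by
          rw [← Real.rpow_natCast, ← Real.rpow_mul h2]
          push_cast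
          rw [one_div_mul_cancel (by positivity), Real.rpow_one]
  have hratio : 1 < ρ' / ρ := by rw [one_lt_div (by linarith)]; exact hρ1
  obtain ⟨n₀, hn₀⟩ := pow_unbounded_of_one_lt (ρ' ^ (m + 1)) hratio
  refine ⟨n₀, fun n hn => ?_⟩
  set q := n / (m + 1) with hq
  have hn1 : n ≤ (m + 1) * q + (m + 1) := by
    have h3 := Nat.mod_lt n (Nat.succ_pos m)
    calc n = (m + 1) * q + n % (m + 1) := (Nat.div_add_mod n (m + 1)).symm
      _ ≤ _ := Nat.add_le_add_left h3.le _
  have hn2 : (m + 1) * q ≤ n := Nat.mul_div_le n (m + 1)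
  have h3 : (r H (m + 1) : ℝ) ^ q ≤ r H n := by
    exact_mod_cast (r_pow (m + 1) q).trans (r_mono hn2)
  have h4 : (ρ' ^ (m + 1)) ^ q ≤ (r H (m + 1) : ℝ) ^ q :=
    pow_le_pow_left₀ (by positivity) hm' _
  have h5 : ρ' ^ n ≤ (ρ' ^ (m + 1)) ^ q * ρ' ^ (m + 1) := by
    rw [← pow_mul, ← pow_add]
    exact pow_le_pow_right₀ hρ'1.le hn1
  have h6 : ρ' ^ (m + 1) ≤ (ρ' / ρ) ^ n :=
    hn₀.le.trans (pow_le_pow_right₀ hratio.le hn)
  have h7 : ρ ^ n * ρ' ^ (m + 1) ≤ ρ' ^ n := by
    calc ρ ^ n * ρ' ^ (m + 1) ≤ ρ ^ n * (ρ' / ρ) ^ n :=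
          mul_le_mul_of_nonneg_left h6 (by positivity)
      _ = ρ' ^ n := by
          rw [← mul_pow, mul_div_cancel₀ _ (by linarith : ρ ≠ 0)]
  have h8 : ρ ^ n * ρ' ^ (m + 1) ≤ (r H n : ℝ) * ρ' ^ (m + 1) :=
    h7.trans (h5.trans (mul_le_mul_of_nonneg_right (h4.trans h3) (by positivity)))
  exact le_of_mul_le_mul_right h8 (by positivity)

/-- for general index sets -/
theorem card_le_r' {ι : Type} [Fintype ι] (B : Finset ((ι → H) × (ι → H))) (hB : CornerFree B) :
    B.card ≤ r H (Fintype.card ι) := by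
  classical
  let e := Fintype.equivFin ι
  let f : (ι → H) × (ι → H) → (Fin (Fintype.card ι) → H) × (Fin (Fintype.card ι) → H) :=
    fun q => ((fun j => q.1 (e.symm j)), fun j => q.2 (e.symm j))
  have hback : ∀ (u : ι → H) (v : Fin (Fintype.card ι) → H), (fun j => u (e.symm j)) = v →
      u = fun i => v (e i) := by
    intro u v h
    funext i
    rw [← h]
    simp
  have hf : Function.Injective f := by
    intro q q' h
    have h1 := hback _ _ (congrArg Prod.fst h)
    have h2 := hback _ _ (congrArg Prod.snd h)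
    exact Prod.ext (h1.trans (funext fun i => by simp [f])) (h2.trans (funext fun i => by simp [f]))
  rw [← card_image_of_injective B hf]
  apply card_le_r
  have key : ∀ x y : Fin (Fintype.card ι) → H, (x, y) ∈ B.image f →
      ((fun i => x (e i)), fun i => y (e i)) ∈ B := by
    intro x y h
    obtain ⟨q, hq, hqx⟩ := mem_image.1 h
    have h1 := hback q.1 x (congrArg Prod.fst hqx)
    have h2 := hback q.2 y (congrArg Prod.snd hqx)
    rw [← h1, ← h2]
    exact hq
  intro x y z h0 h1 h2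
  have h3 := hB _ _ _ (key _ _ h0) (key _ _ h1) (key _ _ h2)
  funext j
  have := congrFun h3 (e.symm j)
  simpa using this

theorem rG_le {ι : Type} [Fintype ι] (G : Subgroup (Equiv.Perm ι)) :
    rG H G ≤ r H (Fintype.card ι) := by
  obtain ⟨A, hA, _, hc⟩ := exists_rG (H := H) G
  rw [← hc]
  exact card_le_r' A hA

theorem Theta_anti {ι : Type} [Fintype ι] (G : Subgroup (Equiv.Perm ι)) {δ δ' : ℝ}
    (h : δ ≤ δ') : Theta G δ' ≤ Theta G δ := by
  unfold Theta
  refine sum_le_sum fun g _ => ?_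
  split_ifs
  · apply Real.exp_le_exp.2
    have : (0 : ℝ) ≤ (moved g : ℝ) := by positivity
    nlinarith
  · exact le_refl _

/-- the inequality, with `ε` -/
theorem ineq [Nontrivial H] (ε : ℝ) (hε : 0 < ε) (hε1 : ε ≤ 1)
    {ι : Type} [Fintype ι] (G : Subgroup (Equiv.Perm ι))
    (hΘ : Theta G (ε ^ 3 / 2250) ≤ 1 / 5) :
    (∃ m : ℕ, (1 - ε) * Fintype.card ι ≤ m ∧ m ≤ Fintype.card ι ∧ r H m ≤ rG H G) ∧
      (r H (Fintype.card ι) : ℝ) ≤ (Nat.card H : ℝ) ^ (2 * ε * Fintype.card ι) * rG H G := by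
  set Q := ⌈4 / ε⌉₊ with hQ
  have h4 : 4 / ε ≤ Q := Nat.le_ceil _
  have h4' : (4 : ℝ) ≤ 4 / ε := by
    rw [le_div_iff₀ hε]
    nlinarith
  have hQ2 : 2 ≤ Q := by
    have : (4 : ℝ) ≤ Q := h4'.trans h4
    have : 4 ≤ Q := by exact_mod_cast this
    omega
  have hQ0 : (0 : ℝ) < Q := by exact_mod_cast (by omega : 0 < Q)
  have hQ5 : (Q : ℝ) ≤ 5 / ε := by
    have h1 : (Q : ℝ) < 4 / ε + 1 := Nat.ceil_lt_add_one (by positivity)
    have h2 : (1 : ℝ) ≤ 1 / ε := by rw [le_div_iff₀ hε]; linarith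
    have h3 : 4 / ε + 1 / ε = 5 / ε := by ring
    linarith
  have hδ : ε ^ 3 / 2250 ≤ 1 / (18 * (Q : ℝ) ^ 3) := by
    rw [div_le_div_iff₀ (by norm_num) (by positivity)]
    have h1 : (Q : ℝ) * ε ≤ 5 := by rwa [le_div_iff₀ hε] at hQ5
    have h2 : ((Q : ℝ) * ε) ^ 3 ≤ 5 ^ 3 := pow_le_pow_left₀ (by positivity) h1 3
    nlinarith
  obtain ⟨m, hm1, hm2, hm3⟩ := main (H := H) G Q hQ2 ((Theta_anti G hδ).trans hΘ)
  set n := Fintype.card ι with hn
  have hnm : ((n - m : ℕ) : ℝ) ≤ ε * n := by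
    have h1 : (Q : ℝ) * ((n - m : ℕ) : ℝ) ≤ 4 * n := by exact_mod_cast hm2
    have h2 : (4 / ε) * ((n - m : ℕ) : ℝ) ≤ 4 * n :=
      (mul_le_mul_of_nonneg_right h4 (by positivity)).trans h1
    have h3 : 4 * ((n - m : ℕ) : ℝ) ≤ 4 * (ε * n) := by
      calc 4 * ((n - m : ℕ) : ℝ) = ε * ((4 / ε) * ((n - m : ℕ) : ℝ)) := by
            field_simp
        _ ≤ ε * (4 * n) := mul_le_mul_of_nonneg_left h2 hε.le
        _ = _ := by ring
    linarith
  refine ⟨⟨m, ?_, hm1, hm3⟩, ?_⟩
  · rw [Nat.cast_sub hm1] at hnm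
    linarith
  · have h1 : r H n ≤ (Nat.card H ^ 2) ^ (n - m) * r H m := by
      have := r_add_le (H := H) m (n - m)
      rwa [Nat.add_sub_cancel' hm1] at this
    have hp1 : (1 : ℝ) ≤ Nat.card H := by exact_mod_cast Nat.card_pos (α := H)
    calc (r H n : ℝ) ≤ ((Nat.card H : ℝ) ^ 2) ^ (n - m) * r H m := by exact_mod_cast h1
      _ ≤ ((Nat.card H : ℝ) ^ 2) ^ (n - m) * rG H G :=
          mul_le_mul_of_nonneg_left (by exact_mod_cast hm3) (by positivity)
      _ ≤ (Nat.card H : ℝ) ^ (2 * ε * n) * rG H G := by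
          refine mul_le_mul_of_nonneg_right ?_ (by positivity)
          rw [← pow_mul, ← Real.rpow_natCast]
          apply Real.rpow_le_rpow_of_exponent_le hp1
          push_cast
          nlinarith

/-- the growth rate -/
theorem growth [Nontrivial H] (ρ : ℝ) (hρ0 : 0 ≤ ρ) (hρ : ρ < lam H) :
    ∃ δ : ℝ, 0 < δ ∧ ∃ n₀ : ℕ, ∀ {ι : Type} [Fintype ι] (G : Subgroup (Equiv.Perm ι)),
      n₀ ≤ Fintype.card ι → Theta G δ ≤ 1 / 5 →
        ρ ^ Fintype.card ι ≤ rG H G ∧ (rG H G : ℝ) ≤ lam H ^ Fintype.card ι := by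
  set ρ₁ := max ρ 1 with hρ₁
  have hl : 2 ≤ lam H := lam_ge
  have h1 : ρ₁ < lam H := max_lt hρ (by linarith)
  obtain ⟨ρ', hρ'1, hρ'2⟩ := exists_between h1
  have hρ₁1 : 1 ≤ ρ₁ := le_max_right _ _
  have hρ'0 : 1 < ρ' := lt_of_le_of_lt hρ₁1 hρ'1
  obtain ⟨N, hN⟩ := r_ge (H := H) ρ' hρ'0.le hρ'2
  have hlog : 0 < Real.log ρ' := Real.log_pos hρ'0
  have hlog1 : Real.log ρ₁ < Real.log ρ' := Real.log_lt_log (by linarith) hρ'1
  have hlog0 : 0 ≤ Real.log ρ₁ := Real.log_nonneg hρ₁1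
  set ε := min (1 / 2) (1 - Real.log ρ₁ / Real.log ρ') with hε
  have hε0 : 0 < ε := by
    apply lt_min (by norm_num)
    have : Real.log ρ₁ / Real.log ρ' < 1 := by rwa [div_lt_one hlog]
    linarith
  have hε2 : ε ≤ 1 / 2 := min_le_left _ _
  have hε3 : Real.log ρ₁ ≤ (1 - ε) * Real.log ρ' := by
    have h2 : ε ≤ 1 - Real.log ρ₁ / Real.log ρ' := min_le_right _ _
    have h3 : Real.log ρ₁ / Real.log ρ' ≤ 1 - ε := by linarith
    rwa [div_le_iff₀ hlog] at h3
  refine ⟨ε ^ 3 / 2250, by positivity, 2 * N, ?_⟩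
  intro ι _ G hn hΘ
  set n := Fintype.card ι with hn'
  obtain ⟨⟨m, hm1, hm2, hm3⟩, _⟩ := ineq (H := H) ε hε0 (by linarith) G hΘ
  refine ⟨?_, ?_⟩
  · have hNm : N ≤ m := by
      have h2 : (N : ℝ) ≤ m := by
        have h3 : (2 * N : ℝ) ≤ n := by exact_mod_cast hn
        have h4 : (1 / 2 : ℝ) * n ≤ (1 - ε) * n :=
          mul_le_mul_of_nonneg_right (by linarith) (by positivity)
        linarith
      exact_mod_cast h2
    have h5 : ρ' ^ m ≤ (r H m : ℝ) := hN m hNm
    have h6 : ρ₁ ^ n ≤ ρ' ^ m := by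
      rw [← Real.log_le_log_iff (by positivity) (by positivity), Real.log_pow, Real.log_pow]
      calc (n : ℝ) * Real.log ρ₁ ≤ n * ((1 - ε) * Real.log ρ') :=
            mul_le_mul_of_nonneg_left hε3 (by positivity)
        _ = ((1 - ε) * n) * Real.log ρ' := by ring
        _ ≤ m * Real.log ρ' := mul_le_mul_of_nonneg_right hm1 hlog.le
    calc ρ ^ n ≤ ρ₁ ^ n := pow_le_pow_left₀ hρ0 (le_max_left _ _) _
      _ ≤ ρ' ^ m := h6
      _ ≤ r H m := h5
      _ ≤ rG H G := by exact_mod_cast hm3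
  · calc (rG H G : ℝ) ≤ r H n := by exact_mod_cast rG_le G
      _ ≤ _ := r_le_lam n

open scoped Classical in
theorem Theta_range_le {Δ ι : Type} [Group Δ] [Fintype Δ] [Fintype ι]
    (φ : Δ →* Equiv.Perm ι) (δ : ℝ) :
    Theta φ.range δ ≤ ∑ a : Δ, if φ a ≠ 1 then Real.exp (-(δ * moved (φ a))) else 0 := by
  set F : Equiv.Perm ι → ℝ := fun g => Real.exp (-(δ * moved g)) with hF
  set S : Finset Δ := univ.filter fun a => φ a ≠ 1 with hS
  have h1 : Theta φ.range δ = ∑ g ∈ (univ.filter fun g => g ∈ φ.range ∧ g ≠ 1), F g := by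
    unfold Theta
    rw [sum_filter]
    refine sum_congr rfl fun g _ => ?_
    by_cases h : g ∈ φ.range ∧ g ≠ 1
    · rw [if_pos h, if_pos h]
    · rw [if_neg h, if_neg h]
  have h2 : (univ.filter fun g => g ∈ φ.range ∧ g ≠ 1) ⊆ S.image φ := by
    intro g hg
    obtain ⟨⟨a, ha⟩, hg1⟩ := (mem_filter.1 hg).2
    refine mem_image.2 ⟨a, mem_filter.2 ⟨mem_univ _, ?_⟩, ha⟩
    rw [ha]
    exact hg1
  have h3 : ∑ g ∈ S.image φ, F g ≤ ∑ a ∈ S, F (φ a) := by
    calc ∑ g ∈ S.image φ, F g ≤ ∑ g ∈ S.image φ, ∑ a ∈ S.filter (fun a => φ a = g), F (φ a) := by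
          refine sum_le_sum fun g hg => ?_
          obtain ⟨a, ha, rfl⟩ := mem_image.1 hg
          exact single_le_sum (f := fun b => F (φ b)) (fun b _ => (Real.exp_pos _).le)
            (mem_filter.2 ⟨ha, rfl⟩)
      _ = ∑ a ∈ S, F (φ a) := sum_fiberwise_of_maps_to (fun a ha => mem_image_of_mem φ ha) _
  rw [h1]
  refine (sum_le_sum_of_subset_of_nonneg h2 fun g _ _ => (Real.exp_pos _).le).trans (h3.trans ?_)
  rw [← sum_filter]

theorem moved_eq_mv {ι : Type} [Fintype ι] [i1 : DecidableEq ι] (π : Equiv.Perm ι) :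
    moved π = mv π := by
  unfold moved mv
  congr

open scoped Classical in
/-- few elements, large minimal degree -/
theorem minDegree [Nontrivial H] (ρ : ℝ) (hρ0 : 0 ≤ ρ) (hρ : ρ < lam H) :
    ∃ C : ℝ, 0 < C ∧ ∀ {ι : Type} [Fintype ι] (G : Subgroup (Equiv.Perm ι)),
      C ≤ Fintype.card ι →
      (∀ g ∈ G, g ≠ 1 → C * (1 + Real.log (Nat.card G)) ≤ moved g) →
        ρ ^ Fintype.card ι ≤ rG H G := by
  obtain ⟨δ, hδ, n₀, h⟩ := growth (H := H) ρ hρ0 hρ
  refine ⟨max (2 / δ) (n₀ + 1), lt_max_of_lt_left (by positivity), ?_⟩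
  intro ι _ G hn hμ
  refine (h G ?_ ?_).1
  · have h1 : (n₀ : ℝ) ≤ Fintype.card ι := by
      have := (le_max_right (2 / δ) ((n₀ : ℝ) + 1)).trans hn
      linarith
    exact_mod_cast h1
  · have hcard : (0 : ℝ) < Nat.card G := by exact_mod_cast Nat.card_pos
    have hlog : 0 ≤ Real.log (Nat.card G) := Real.log_nonneg (by exact_mod_cast Nat.card_pos)
    have h1 : Theta G δ ≤ ∑ g : Equiv.Perm ι, if g ∈ G then
        Real.exp (-(2 * (1 + Real.log (Nat.card G)))) else 0 := by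
      unfold Theta
      refine sum_le_sum fun g _ => ?_
      by_cases hg : g ∈ G
      · by_cases hg1 : g ≠ 1
        · rw [if_pos ⟨hg, hg1⟩, if_pos hg]
          apply Real.exp_le_exp.2
          have h2 := hμ g hg hg1
          have h3 : 2 / δ * (1 + Real.log (Nat.card G)) ≤ moved g :=
            (mul_le_mul_of_nonneg_right (le_max_left _ _) (by linarith)).trans h2
          have h4 : δ * (2 / δ * (1 + Real.log (Nat.card G))) ≤ δ * moved g :=
            mul_le_mul_of_nonneg_left h3 hδ.le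
          have h5 : δ * (2 / δ * (1 + Real.log (Nat.card G))) = 2 * (1 + Real.log (Nat.card G)) := by
            field_simp
          linarith
        · rw [if_neg (fun h => hg1 h.2), if_pos hg]
          exact (Real.exp_pos _).le
      · rw [if_neg (fun h => hg h.1), if_neg hg]
    refine h1.trans ?_
    rw [← sum_filter, sum_const, nsmul_eq_mul]
    have h2 : ((univ.filter fun g => g ∈ G).card : ℝ) = Nat.card G := by
      rw [Nat.card_eq_fintype_card, ← Fintype.card_subtype]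
    rw [h2]
    have h3 : Real.exp (-(2 * (1 + Real.log (Nat.card G)))) ≤ Real.exp (-2) * (Nat.card G : ℝ)⁻¹ := by
      have : (Nat.card G : ℝ)⁻¹ = Real.exp (-Real.log (Nat.card G)) := by
        rw [Real.exp_neg, Real.exp_log hcard]
      rw [this, ← Real.exp_add]
      apply Real.exp_le_exp.2
      linarith
    have h4 : Real.exp (-2) ≤ 1 / 5 := by
      have h5 : Real.exp 2 ≥ 5 := by
        have := Real.quadratic_le_exp_of_nonneg (show (0 : ℝ) ≤ 2 by norm_num)
        norm_num at this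
        linarith
      rw [Real.exp_neg, inv_le_comm₀ (Real.exp_pos _) (by norm_num)]
      linarith
    calc (Nat.card G : ℝ) * Real.exp (-(2 * (1 + Real.log (Nat.card G))))
        ≤ (Nat.card G : ℝ) * (Real.exp (-2) * (Nat.card G : ℝ)⁻¹) :=
          mul_le_mul_of_nonneg_left h3 hcard.le
      _ = Real.exp (-2) := by field_simp
      _ ≤ 1 / 5 := h4

/-- left and right translations of a group -/
theorem groups [Nontrivial H] (ρ : ℝ) (hρ0 : 0 ≤ ρ) (hρ : ρ < lam H) :
    ∃ n₀ : ℕ, ∀ (Γ : Type) [Group Γ] [Fintype Γ], n₀ ≤ Fintype.card Γ →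
      ∃ A : Finset ((Γ → H) × (Γ → H)), CornerFree A ∧
        (∀ a b : Γ, ∀ q ∈ A, ((fun i => q.1 (a * i * b)), fun i => q.2 (a * i * b)) ∈ A) ∧
        ρ ^ Fintype.card Γ ≤ A.card := by
  classical
  obtain ⟨δ, hδ, n₀, h⟩ := growth (H := H) ρ hρ0 hρ
  have hlim : ∃ n₁ : ℕ, ∀ n ≥ n₁, (n : ℝ) ^ 2 * Real.exp (-(δ * n / 2)) ≤ 1 / 5 := by
    have h1 : Filter.Tendsto (fun x : ℝ => x ^ 2 * Real.exp (-x)) Filter.atTop (nhds 0) :=
      Real.tendsto_pow_mul_exp_neg_atTop_nhds_zero 2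
    have h2 : Filter.Tendsto (fun m : ℕ => δ / 2 * (m : ℝ)) Filter.atTop Filter.atTop :=
      Filter.Tendsto.const_mul_atTop (by positivity) tendsto_natCast_atTop_atTop
    have h4 : Filter.Tendsto (fun m : ℕ => (m : ℝ) ^ 2 * Real.exp (-(δ * m / 2))) Filter.atTop
        (nhds 0) := by
      have h5 := (h1.comp h2).const_mul (4 / δ ^ 2)
      rw [mul_zero] at h5
      refine h5.congr fun m => ?_
      simp only [Function.comp]
      have : δ / 2 * (m : ℝ) = δ * m / 2 := by ring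
      rw [this]
      field_simp
      ring
    obtain ⟨m₀, h⟩ := Filter.eventually_atTop.1 (h4.eventually (ge_mem_nhds
      (show (0 : ℝ) < 1 / 5 by norm_num)))
    exact ⟨m₀, h⟩
  obtain ⟨n₁, hn₁⟩ := hlim
  refine ⟨max n₀ n₁, fun Γ _ _ hn => ?_⟩
  let φ : Γ × Γ →* Equiv.Perm Γ :=
    { toFun := fun q =>
        { toFun := fun i => q.1 * i * q.2⁻¹
          invFun := fun i => q.1⁻¹ * i * q.2
          left_inv := fun i => by group
          right_inv := fun i => by group }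
      map_one' := by ext i; simp
      map_mul' := fun q q' => by
        ext i
        simp only [Equiv.coe_fn_mk, Equiv.Perm.coe_mul, Function.comp, Prod.fst_mul, Prod.snd_mul]
        group }
  have hφ : ∀ q i, φ q i = q.1 * i * q.2⁻¹ := fun q i => rfl
  have hΘ : Theta φ.range δ ≤ 1 / 5 := by
    refine (Theta_range_le φ δ).trans ?_
    refine le_trans ?_ (hn₁ (Fintype.card Γ) ((le_max_right _ _).trans hn))
    calc _ ≤ ∑ a : Γ × Γ, Real.exp (-(δ * Fintype.card Γ / 2)) := by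
          refine sum_le_sum fun a _ => ?_
          by_cases h1 : φ a ≠ 1
          · rw [if_pos h1, moved_eq_mv]
            apply Real.exp_le_exp.2
            have h2 := mv_biinv (φ a) a.1 a.2⁻¹ (hφ a) h1
            have h3 : (Fintype.card Γ : ℝ) ≤ 2 * mv (φ a) := by exact_mod_cast h2
            nlinarith
          · rw [if_neg h1]
            exact (Real.exp_pos _).le
      _ = (Fintype.card Γ : ℝ) ^ 2 * Real.exp (-(δ * Fintype.card Γ / 2)) := by
          rw [sum_const, Finset.card_univ, Fintype.card_prod, nsmul_eq_mul]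
          push_cast
          ring
  obtain ⟨A, hA, hAG, hAc⟩ := exists_rG (H := H) φ.range
  refine ⟨A, hA, fun a b x hx => ?_, ?_⟩
  · have h1 := hAG (φ (a, b⁻¹)) ⟨(a, b⁻¹), rfl⟩ x hx
    have h2 : (x.1 ∘ (φ (a, b⁻¹) : Equiv.Perm Γ), x.2 ∘ (φ (a, b⁻¹) : Equiv.Perm Γ)) =
        ((fun i => x.1 (a * i * b)), fun i => x.2 (a * i * b)) := by
      refine Prod.ext (funext fun i => ?_) (funext fun i => ?_)
      · simp only [Function.comp, hφ, inv_inv]
      · simp only [Function.comp, hφ, inv_inv]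
    rwa [h2] at h1
  · rw [hAc]
    exact (h φ.range ((le_max_left _ _).trans hn) hΘ).1

/-- permutations of the rows and of the columns -/
theorem matrices [Nontrivial H] (ρ : ℝ) (hρ0 : 0 ≤ ρ) (hρ : ρ < lam H) :
    ∃ m₀ : ℕ, ∀ m ≥ m₀, ∃ A : Finset ((Fin m × Fin m → H) × (Fin m × Fin m → H)),
        CornerFree A ∧
        (∀ π τ : Equiv.Perm (Fin m), ∀ q ∈ A, ((fun i => q.1 (π i.1, τ i.2)),
          fun i => q.2 (π i.1, τ i.2)) ∈ A) ∧
        ρ ^ m ^ 2 ≤ A.card := by
  classical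
  obtain ⟨δ, hδ, n₀, h⟩ := growth (H := H) ρ hρ0 hρ
  obtain ⟨m₁, hm₁⟩ := rows_cols_small δ hδ
  refine ⟨max (n₀ + 1) m₁, fun m hm => ?_⟩
  let φ : Equiv.Perm (Fin m) × Equiv.Perm (Fin m) →* Equiv.Perm (Fin m × Fin m) :=
    { toFun := fun q => Equiv.prodCongr q.1 q.2
      map_one' := by ext i <;> simp
      map_mul' := fun q q' => by ext i <;> simp }
  have hφ : ∀ q, φ q = Equiv.prodCongr q.1 q.2 := fun q => rfl
  have hΘ : Theta φ.range δ ≤ 1 / 5 := by
    refine (Theta_range_le φ δ).trans ?_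
    have h1 := (sum_rows_cols m δ hδ.le).trans (hm₁ m ((le_max_right _ _).trans hm))
    refine le_trans (le_of_eq (sum_congr rfl fun a _ => ?_)) h1
    by_cases h2 : φ a ≠ 1
    · rw [if_pos h2, if_pos (show (Equiv.prodCongr a.1 a.2 : Equiv.Perm (Fin m × Fin m)) ≠ 1 from h2),
        moved_eq_mv]
      rfl
    · rw [if_neg h2, if_neg (show ¬ (Equiv.prodCongr a.1 a.2 : Equiv.Perm (Fin m × Fin m)) ≠ 1 from h2)]
  obtain ⟨A, hA, hAG, hAc⟩ := exists_rG (H := H) φ.range
  refine ⟨A, hA, fun π τ x hx => ?_, ?_⟩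
  · exact hAG (φ (π, τ)) ⟨(π, τ), rfl⟩ x hx
  · rw [hAc]
    have hcard : Fintype.card (Fin m × Fin m) = m ^ 2 := by
      rw [Fintype.card_prod, Fintype.card_fin, sq]
    have h1 := (h φ.range (by
      rw [hcard]
      have h2 : n₀ + 1 ≤ m := (le_max_left _ _).trans hm
      nlinarith) hΘ).1
    rw [hcard] at h1
    exact h1

open Filter Topology in
/-- the power saving bound for all corner-free sets follows from the one for invariant sets -/
theorem powerSaving (ι : ℕ → Type) [∀ j, Fintype (ι j)] (G : ∀ j, Subgroup (Equiv.Perm (ι j)))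
    (hι : Tendsto (fun j => Fintype.card (ι j)) atTop atTop)
    (hG : ∀ δ : ℝ, 0 < δ → Tendsto (fun j => Theta (G j) δ) atTop (𝓝 0)) :
    (∃ c : ℝ, 0 < c ∧ ∃ C : ℝ, ∀ (n : ℕ) (A : Finset ((Fin n → ZMod 2) × (Fin n → ZMod 2))),
      CornerFree A → (A.card : ℝ) ≤ C * (4 : ℝ) ^ ((1 - c) * n)) ↔
    ∃ c : ℝ, 0 < c ∧ ∃ C : ℝ, ∀ (j : ℕ) (A : Finset ((ι j → ZMod 2) × (ι j → ZMod 2))),
      CornerFree A → Inv (G j) A → (A.card : ℝ) ≤ C * (4 : ℝ) ^ ((1 - c) * Fintype.card (ι j)) := by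
  constructor
  · rintro ⟨c, hc, C, h⟩
    refine ⟨c, hc, C, fun j A hA _ => ?_⟩
    obtain ⟨B, hB, hBc⟩ := exists_r (H := ZMod 2) (Fintype.card (ι j))
    have h1 : (A.card : ℝ) ≤ B.card := by
      rw [hBc]
      exact_mod_cast card_le_r' A hA
    exact h1.trans (h _ B hB)
  · rintro ⟨c, hc, C, h⟩
    have hlam : lam (ZMod 2) ≤ (4 : ℝ) ^ (1 - c) := by
      by_contra hcon
      push Not at hcon
      obtain ⟨ρ, hρ1, hρ2⟩ := exists_between hcon
      have h4 : (0 : ℝ) < (4 : ℝ) ^ (1 - c) := by positivity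
      have hρ0 : 0 ≤ ρ := by linarith
      obtain ⟨δ, hδ, n₀, hgr⟩ := growth (H := ZMod 2) ρ hρ0 hρ2
      have hratio : 1 < ρ / (4 : ℝ) ^ (1 - c) := by rw [one_lt_div h4]; exact hρ1
      obtain ⟨N, hN⟩ := pow_unbounded_of_one_lt C hratio
      have ev1 := hι.eventually_ge_atTop (max n₀ N)
      have ev2 := (hG δ hδ).eventually (ge_mem_nhds (show (0 : ℝ) < 1 / 5 by norm_num))
      obtain ⟨j, hj1, hj2⟩ := (ev1.and ev2).exists
      obtain ⟨A, hA, hAi, hAc⟩ := exists_rG (H := ZMod 2) (G j)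
      have h1 := (hgr (G j) ((le_max_left _ _).trans hj1) hj2).1
      have h2 := h j A hA hAi
      rw [hAc] at h2
      have h3 : ρ ^ Fintype.card (ι j) ≤ C * ((4 : ℝ) ^ (1 - c)) ^ Fintype.card (ι j) := by
        refine (h1.trans h2).trans (le_of_eq ?_)
        rw [← Real.rpow_natCast ((4 : ℝ) ^ (1 - c)), ← Real.rpow_mul (by norm_num)]
      have h5 : (ρ / (4 : ℝ) ^ (1 - c)) ^ Fintype.card (ι j) ≤ C := by
        rw [div_pow, div_le_iff₀ (by positivity)]
        exact h3
      have h6 : (ρ / (4 : ℝ) ^ (1 - c)) ^ N ≤ (ρ / (4 : ℝ) ^ (1 - c)) ^ Fintype.card (ι j) :=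
        pow_le_pow_right₀ hratio.le ((le_max_right _ _).trans hj1)
      linarith
    refine ⟨c, hc, 1, fun n A hA => ?_⟩
    have hl : 2 ≤ lam (ZMod 2) := lam_ge
    calc (A.card : ℝ) ≤ r (ZMod 2) n := by exact_mod_cast card_le_r hA
      _ ≤ lam (ZMod 2) ^ n := r_le_lam n
      _ ≤ ((4 : ℝ) ^ (1 - c)) ^ n := pow_le_pow_left₀ (by linarith) hlam n
      _ = 1 * (4 : ℝ) ^ ((1 - c) * n) := by
          rw [one_mul, ← Real.rpow_natCast, ← Real.rpow_mul (by norm_num)]

end Pool.Agent.U465.Co
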