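import Mathlib

set_option autoImplicit false

/-! # Definitions for corner-free sets with symmetries -/

namespace Pool.Agent.U465.Co

section

open Finset
open scoped Classical

/-- `A` contains no corner `(x, y), (x, y + z), (x + z, y)` with `z ≠ 0`. -/
def CornerFree {V : Type} [AddCommGroup V] (A : Finset (V × V)) : Prop :=
  ∀ x y z : V, (x, y) ∈ A → (x, y + z) ∈ A → (x + z, y) ∈ A → z = 0

/-- The largest size of a corner-free subset of `(H^n)^2`. -/
noncomputable def r (H : Type) [AddCommGroup H] (n : ℕ) : ℕ :=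
  sSup {m : ℕ | ∃ A : Finset ((Fin n → H) × (Fin n → H)), CornerFree A ∧ A.card = m}

/-- The exponential growth rate of the corner-free subsets of `(H^n)^2`. -/
noncomputable def lam (H : Type) [AddCommGroup H] : ℝ :=
  ⨆ n : ℕ, (r H (n + 1) : ℝ) ^ (1 / ((n : ℝ) + 1))

/-- `A ⊆ (H^ι)^2` is invariant under the permutations `π ∈ G` of the coordinates, which act on `x` and
on `y` simultaneously. -/
def Inv {H ι : Type} (G : Subgroup (Equiv.Perm ι)) (A : Finset ((ι → H) × (ι → H))) : Prop :=
  ∀ π ∈ G, ∀ q ∈ A, (q.1 ∘ π, q.2 ∘ π) ∈ A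

/-- The number of the coordinates moved by `π`. -/
noncomputable def moved {ι : Type} [Fintype ι] (π : Equiv.Perm ι) : ℕ :=
  (univ.filter fun i => π i ≠ i).card

/-- `Θ_G(δ) = ∑_{π ∈ G, π ≠ 1} exp (-δ moved(π))`. -/
noncomputable def Theta {ι : Type} [Fintype ι] (G : Subgroup (Equiv.Perm ι)) (δ : ℝ) : ℝ :=
  ∑ π : Equiv.Perm ι, if π ∈ G ∧ π ≠ 1 then Real.exp (-(δ * moved π)) else 0

/-- The largest size of a corner-free subset of `(H^ι)^2` which is invariant under `G`. -/
noncomputable def rG (H : Type) [AddCommGroup H] {ι : Type} (G : Subgroup (Equiv.Perm ι)) : ℕ :=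
  sSup {m : ℕ | ∃ A : Finset ((ι → H) × (ι → H)), CornerFree A ∧ Inv G A ∧ A.card = m}

end

end Pool.Agent.U465.Co
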