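import Pool.Agent.U465.Pat
import Pool.Agent.U465.CoDefs

set_option autoImplicit false
set_option linter.unusedSectionVars false

/-! # Corner-free sets with prescribed symmetries: the construction -/

namespace Pool.Agent.U465.Co

open Finset

variable {H : Type} [AddCommGroup H]

section

variable [Finite H]

theorem r_bdd (n : ℕ) :
    BddAbove {m : ℕ | ∃ A : Finset ((Fin n → H) × (Fin n → H)), CornerFree A ∧ A.card = m} := by
  classical
  have := Fintype.ofFinite ((Fin n → H) × (Fin n → H))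
  refine ⟨Fintype.card ((Fin n → H) × (Fin n → H)), ?_⟩
  rintro m ⟨B, _, rfl⟩
  exact Finset.card_le_univ B

theorem empty_free {V : Type} [AddCommGroup V] : CornerFree (∅ : Finset (V × V)) :=
  fun x y z h => absurd h (by simp)

theorem exists_r (n : ℕ) :
    ∃ A : Finset ((Fin n → H) × (Fin n → H)), CornerFree A ∧ A.card = r H n := by
  have h1 : {m : ℕ | ∃ A : Finset ((Fin n → H) × (Fin n → H)), CornerFree A ∧
      A.card = m}.Nonempty := ⟨0, ∅, empty_free, rfl⟩
  exact Nat.sSup_mem h1 (r_bdd n)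

theorem rG_bdd {ι : Type} [Finite ι] (G : Subgroup (Equiv.Perm ι)) :
    BddAbove {m : ℕ | ∃ A : Finset ((ι → H) × (ι → H)), CornerFree A ∧ Inv G A ∧ A.card = m} := by
  have := Fintype.ofFinite ((ι → H) × (ι → H))
  refine ⟨Fintype.card ((ι → H) × (ι → H)), ?_⟩
  rintro m ⟨B, _, _, rfl⟩
  exact Finset.card_le_univ B

theorem exists_rG {ι : Type} [Finite ι] (G : Subgroup (Equiv.Perm ι)) :
    ∃ A : Finset ((ι → H) × (ι → H)), CornerFree A ∧ Inv G A ∧ A.card = rG H G := by
  have h1 : {m : ℕ | ∃ A : Finset ((ι → H) × (ι → H)), CornerFree A ∧ Inv G A ∧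
      A.card = m}.Nonempty :=
    ⟨0, ∅, empty_free, fun _ _ q hq => absurd hq (by simp), rfl⟩
  exact Nat.sSup_mem h1 (rG_bdd G)

theorem card_le_rG {ι : Type} [Finite ι] (G : Subgroup (Equiv.Perm ι))
    (A : Finset ((ι → H) × (ι → H))) (hA : CornerFree A) (hG : Inv G A) : A.card ≤ rG H G :=
  le_csSup (rG_bdd G) ⟨A, hA, hG, rfl⟩

end

theorem moved_one {ι : Type} [Fintype ι] : moved (1 : Equiv.Perm ι) = 0 := by
  simp [moved]

/-- the moved points -/
noncomputable def mvset {ι : Type} [Fintype ι] (π : Equiv.Perm ι) : Finset ι := by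
  classical
  exact univ.filter fun i => π i ≠ i

theorem mem_mvset {ι : Type} [Fintype ι] {π : Equiv.Perm ι} {i : ι} : i ∈ mvset π ↔ π i ≠ i := by
  classical
  simp [mvset]

theorem card_mvset {ι : Type} [Fintype ι] (π : Equiv.Perm ι) : (mvset π).card = moved π := by
  classical
  unfold mvset moved
  congr

open scoped Classical in
/-- the sum over the pairs -/
theorem sum_pairs {ι : Type} [Fintype ι] (G : Subgroup (Equiv.Perm ι)) (δ : ℝ)
    (hδ : 0 ≤ δ) (hΘ : Theta G δ ≤ 1 / 5) :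
    ∑ e ∈ (univ : Finset (Equiv.Perm ι × Equiv.Perm ι)).filter
      (fun e => e.1 ∈ G ∧ e.2 ∈ G ∧ ¬ (e.1 = 1 ∧ e.2 = 1)),
      Real.exp (-(2 * δ * (mvset e.1 ∪ mvset e.2).card)) < 1 / 2 := by
  set F : Equiv.Perm ι → ℝ := fun g => if g ∈ G then Real.exp (-(δ * moved g)) else 0
    with hF
  have hF0 : ∀ g, 0 ≤ F g := by
    intro g
    simp only [hF]
    split_ifs
    · exact (Real.exp_pos _).le
    · exact le_refl _
  have hsum : ∑ g, F g = 1 + Theta G δ := by
    have h1 : ∀ g, F g = (if g = 1 then 1 else 0) +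
        if g ∈ G ∧ g ≠ 1 then Real.exp (-(δ * moved g)) else 0 := by
      intro g
      by_cases hg1 : g = 1
      · rw [hg1]
        simp [hF, moved_one, one_mem]
      · simp [hF, hg1]
    rw [sum_congr rfl fun g _ => h1 g, sum_add_distrib, sum_ite_eq' univ (1 : Equiv.Perm ι),
      if_pos (mem_univ _)]
    rfl
  have hprod : ∑ e : Equiv.Perm ι × Equiv.Perm ι, F e.1 * F e.2 = (1 + Theta G δ) ^ 2 := by
    rw [← hsum, sq, sum_mul_sum, ← univ_product_univ, sum_product]
  have hle : ∑ e ∈ (univ : Finset (Equiv.Perm ι × Equiv.Perm ι)).filter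
      (fun e => e.1 ∈ G ∧ e.2 ∈ G ∧ ¬ (e.1 = 1 ∧ e.2 = 1)),
      Real.exp (-(2 * δ * (mvset e.1 ∪ mvset e.2).card)) ≤
      (∑ e : Equiv.Perm ι × Equiv.Perm ι, F e.1 * F e.2) - 1 := by
    have h11 : F 1 * F 1 = 1 := by
      simp [hF, moved_one, one_mem]
    have h2 : ∑ e : Equiv.Perm ι × Equiv.Perm ι, F e.1 * F e.2 - 1 =
        ∑ e ∈ (univ : Finset (Equiv.Perm ι × Equiv.Perm ι)).erase (1, 1), F e.1 * F e.2 := by
      rw [← Finset.add_sum_erase univ _ (mem_univ ((1 : Equiv.Perm ι), (1 : Equiv.Perm ι)))]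
      simp only [h11]
      ring
    rw [h2]
    refine (sum_le_sum (g := fun e => F e.1 * F e.2) ?_).trans
      (sum_le_sum_of_subset_of_nonneg ?_ fun e _ _ => mul_nonneg (hF0 _) (hF0 _))
    · intro e he
      obtain ⟨h1, h2, _⟩ := (mem_filter.1 he).2
      simp only [hF, if_pos h1, if_pos h2]
      rw [← Real.exp_add]
      apply Real.exp_le_exp.2
      have h3 : (mvset e.1).card ≤ (mvset e.1 ∪ mvset e.2).card := card_le_card subset_union_left
      have h4 : (mvset e.2).card ≤ (mvset e.1 ∪ mvset e.2).card := card_le_card subset_union_right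
      rw [card_mvset] at h3 h4
      have h3' : (moved e.1 : ℝ) ≤ (mvset e.1 ∪ mvset e.2).card := by exact_mod_cast h3
      have h4' : (moved e.2 : ℝ) ≤ (mvset e.1 ∪ mvset e.2).card := by exact_mod_cast h4
      nlinarith
    · intro e he
      obtain ⟨_, _, h3⟩ := (mem_filter.1 he).2
      refine mem_erase.2 ⟨fun h => h3 ?_, mem_univ _⟩
      rw [h]
      exact ⟨rfl, rfl⟩
  have hΘ0 : 0 ≤ Theta G δ := by
    unfold Theta
    refine sum_nonneg fun g _ => ?_
    split_ifs
    · exact (Real.exp_pos _).le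
    · exact le_refl _
  rw [hprod] at hle
  nlinarith

/-- the colour pattern for a test -/
def tgt {ι : Type} [DecidableEq ι] {Q : ℕ} (c0 c1 : Fin Q) (i s t j : ι) : Fin Q :=
  if s = i then (if j = t then c1 else c0)
  else if t = i then (if j = s then c1 else c0)
  else if s = t then (if j = i then c1 else c0)
  else (if j = t then c1 else c0)

theorem tgt_ne {ι : Type} [DecidableEq ι] {Q : ℕ} {c0 c1 : Fin Q} (h01 : c0 ≠ c1) (i s t : ι)
    (h : s ≠ i ∨ t ≠ i) :
    ¬ (tgt c0 c1 i s t i = tgt c0 c1 i s t s ∧ tgt c0 c1 i s t i = tgt c0 c1 i s t t) := by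
  unfold tgt
  rintro ⟨h1, h2⟩
  by_cases hs : s = i
  · have ht : t ≠ i := h.resolve_left (fun h' => h' hs)
    rw [if_pos hs, if_pos hs, if_neg (Ne.symm ht), if_pos rfl] at h2
    exact h01 h2
  · by_cases ht : t = i
    · rw [if_neg hs, if_pos ht, if_neg (Ne.symm hs), if_neg hs, if_pos ht, if_pos rfl] at h1
      exact h01 h1
    · by_cases hst : s = t
      · rw [if_neg hs, if_neg ht, if_pos hst, if_pos rfl, if_neg hs, if_neg ht, if_pos hst,
          if_neg hs] at h1
        exact h01 h1.symm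
      · rw [if_neg hs, if_neg ht, if_neg hst, if_neg (Ne.symm ht), if_neg hs, if_neg ht,
          if_neg hst, if_pos rfl] at h2
        exact h01 h2

open scoped Classical in
/-- **The construction.** -/
theorem main [Finite H] [Nontrivial H] {ι : Type} [Fintype ι]
    (G : Subgroup (Equiv.Perm ι)) (Q : ℕ) (hQ : 2 ≤ Q)
    (hΘ : Theta G (1 / (18 * (Q : ℝ) ^ 3)) ≤ 1 / 5) :
    ∃ m, m ≤ Fintype.card ι ∧ Q * (Fintype.card ι - m) ≤ 4 * Fintype.card ι ∧
      r H m ≤ rG H G := by
  have hQ0 : (0 : ℝ) < Q := by exact_mod_cast (by omega : 0 < Q)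
  obtain ⟨a, ha⟩ := exists_ne (0 : H)
  have := Fintype.ofFinite ((ι → H) × (ι → H))
  let c0 : Fin Q := ⟨0, by omega⟩
  let c1 : Fin Q := ⟨1, by omega⟩
  have hc01 : c0 ≠ c1 := by
    intro h
    have := congrArg Fin.val h
    simp [c0, c1] at this
  set tests := (univ : Finset (Equiv.Perm ι × Equiv.Perm ι)).filter
      (fun e => e.1 ∈ G ∧ e.2 ∈ G ∧ ¬ (e.1 = 1 ∧ e.2 = 1)) with htests
  have hsum : ∑ e ∈ tests,
      Real.exp (-((mvset e.1 ∪ mvset e.2).card / (9 * (Q : ℝ) ^ 3))) < 1 / 2 := by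
    have h1 := sum_pairs G (1 / (18 * (Q : ℝ) ^ 3)) (by positivity) hΘ
    refine lt_of_eq_of_lt (sum_congr rfl fun e _ => ?_) h1
    congr 2
    field_simp
    ring
  obtain ⟨c, hc, hcard⟩ := exists_pattern tests Q hQ c0 c1 (fun e => e.1) (fun e => e.2)
    (fun e => mvset e.1 ∪ mvset e.2) (fun e i j => tgt c0 c1 i (e.1 i) (e.2 i) j) hsum
  -- the fixed coordinates
  let W : ι → Prop := fun i => c i = c0 ∨ c i = c1
  let w : ι → H := fun i => if c i = c1 then a else 0
  have hWcard : Fintype.card {i // ¬ W i} =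
      Fintype.card ι - (univ.filter fun i => c i = c0 ∨ c i = c1).card := by
    rw [Fintype.card_subtype_compl, Fintype.card_subtype]
  have hWle : (univ.filter fun i => c i = c0 ∨ c i = c1).card ≤ Fintype.card ι := card_le_univ _
  obtain ⟨A₀, hA₀, hA₀c⟩ := exists_r (H := H) (Fintype.card {i // ¬ W i})
  let e : {i // ¬ W i} ≃ Fin (Fintype.card {i // ¬ W i}) := Fintype.equivFin _
  let ext : (ι → H) → (Fin (Fintype.card {i // ¬ W i}) → H) → ι → H :=
    fun w z i => if h : W i then w i else z (e ⟨i, h⟩)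
  have hextW : ∀ w z i, W i → ext w z i = w i := fun w z i h => dif_pos h
  have hextN : ∀ w z i (h : ¬ W i), ext w z i = z (e ⟨i, h⟩) := fun w z i h => dif_neg h
  have hextinj : ∀ w, Function.Injective (ext w) := by
    intro w z z' h
    funext j
    have h1 := congrFun h (e.symm j).1
    rw [hextN w z _ (e.symm j).2, hextN w z' _ (e.symm j).2] at h1
    have h2 : e ⟨(e.symm j).1, (e.symm j).2⟩ = j := by
      rw [Subtype.coe_eta, Equiv.apply_symm_apply]
    rwa [h2] at h1
  let E2 : (Fin (Fintype.card {i // ¬ W i}) → H) × (Fin (Fintype.card {i // ¬ W i}) → H) →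
      (ι → H) × (ι → H) := fun z => (ext w z.1, ext 0 z.2)
  have hE2 : Function.Injective E2 := by
    intro z z' h
    have h1 := congrArg Prod.fst h
    have h2 := congrArg Prod.snd h
    exact Prod.ext (hextinj _ h1) (hextinj _ h2)
  let B : Finset ((ι → H) × (ι → H)) := A₀.image E2
  have hBcard : B.card = r H (Fintype.card {i // ¬ W i}) := by
    rw [card_image_of_injective _ hE2, hA₀c]
  have hBW : ∀ x ∈ B, ∀ i, W i → x.1 i = w i ∧ x.2 i = 0 := by
    intro x hx i hi
    obtain ⟨z, _, rfl⟩ := mem_image.1 hx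
    exact ⟨hextW w z.1 i hi, hextW 0 z.2 i hi⟩
  have hB : CornerFree B := by
    intro x y z h0 h1 h2
    have hzW : ∀ i, W i → z i = 0 := by
      intro i hi
      have e0 := (hBW _ h0 i hi).2
      have e1 := (hBW _ h1 i hi).2
      simp only [Pi.add_apply] at e0 e1
      rw [e0, zero_add] at e1
      exact e1
    obtain ⟨q0, hq0, hq0'⟩ := mem_image.1 h0
    obtain ⟨q1, hq1, hq1'⟩ := mem_image.1 h1
    obtain ⟨q2, hq2, hq2'⟩ := mem_image.1 h2
    have hread : ∀ (w : ι → H) (u : Fin (Fintype.card {i // ¬ W i}) → H) (v : ι → H),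
        ext w u = v → u = fun j => v (e.symm j).1 := by
      intro w u v h
      funext j
      rw [← h, hextN w u _ (e.symm j).2, Subtype.coe_eta, Equiv.apply_symm_apply]
    have hzN : (fun j => z (e.symm j).1) = 0 := by
      apply hA₀ (fun j => x (e.symm j).1) (fun j => y (e.symm j).1)
      · have : q0 = (fun j => x (e.symm j).1, fun j => y (e.symm j).1) :=
          Prod.ext (hread w _ _ (congrArg Prod.fst hq0')) (hread 0 _ _ (congrArg Prod.snd hq0'))
        rwa [← this]
      · have : q1 = (fun j => x (e.symm j).1,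
            (fun j => y (e.symm j).1) + fun j => z (e.symm j).1) :=
          Prod.ext (hread w _ _ (congrArg Prod.fst hq1')) (hread 0 _ _ (congrArg Prod.snd hq1'))
        rwa [← this]
      · have : q2 = ((fun j => x (e.symm j).1) + fun j => z (e.symm j).1,
            fun j => y (e.symm j).1) :=
          Prod.ext (hread w _ _ (congrArg Prod.fst hq2')) (hread 0 _ _ (congrArg Prod.snd hq2'))
        rwa [← this]
    funext i
    by_cases hi : W i
    · exact hzW i hi
    · have h1 := congrFun hzN (e ⟨i, hi⟩)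
      simp only [Equiv.symm_apply_apply] at h1
      exact h1
  -- the invariant set
  let A : Finset ((ι → H) × (ι → H)) := univ.filter fun q => ∃ g ∈ G, ∃ b ∈ B, (b.1 ∘ g, b.2 ∘ g) = q
  have hBA : B ⊆ A := fun x hx => mem_filter.2 ⟨mem_univ _, 1, one_mem _, x, hx, rfl⟩
  have hinv : Inv G A := by
    intro g hg x hx
    obtain ⟨h, hh, b, hb, rfl⟩ := (mem_filter.1 hx).2
    exact mem_filter.2 ⟨mem_univ _, h * g, mul_mem hh hg, b, hb, rfl⟩
  have hAfree : CornerFree A := by
    intro x y z h0 h1 h2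
    obtain ⟨g0, hg0, b0, hb0, e0⟩ := (mem_filter.1 h0).2
    obtain ⟨g1, hg1, b1, hb1, e1⟩ := (mem_filter.1 h1).2
    obtain ⟨g2, hg2, b2, hb2, e2⟩ := (mem_filter.1 h2).2
    -- move by the inverse of `g0`
    have hback : ∀ (g : Equiv.Perm ι) (b : ι → H) (v : ι → H), b ∘ g = v →
        v ∘ (g0⁻¹ : Equiv.Perm ι) = b ∘ (g * g0⁻¹ : Equiv.Perm ι) := by
      intro g b v h
      rw [← h]
      rfl
    have f0 : x ∘ (g0⁻¹ : Equiv.Perm ι) = b0.1 ∧ y ∘ (g0⁻¹ : Equiv.Perm ι) = b0.2 := by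
      have k1 := hback g0 b0.1 _ (congrArg Prod.fst e0)
      have k2 := hback g0 b0.2 _ (congrArg Prod.snd e0)
      rw [mul_inv_cancel] at k1 k2
      exact ⟨k1, k2⟩
    have f1 : x ∘ (g0⁻¹ : Equiv.Perm ι) = b1.1 ∘ (g1 * g0⁻¹ : Equiv.Perm ι) ∧
        y ∘ (g0⁻¹ : Equiv.Perm ι) + z ∘ (g0⁻¹ : Equiv.Perm ι) = b1.2 ∘ (g1 * g0⁻¹ : Equiv.Perm ι) :=
      ⟨hback g1 b1.1 _ (congrArg Prod.fst e1), hback g1 b1.2 _ (congrArg Prod.snd e1)⟩
    have f2 : x ∘ (g0⁻¹ : Equiv.Perm ι) + z ∘ (g0⁻¹ : Equiv.Perm ι) =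
        b2.1 ∘ (g2 * g0⁻¹ : Equiv.Perm ι) ∧
        y ∘ (g0⁻¹ : Equiv.Perm ι) = b2.2 ∘ (g2 * g0⁻¹ : Equiv.Perm ι) :=
      ⟨hback g2 b2.1 _ (congrArg Prod.fst e2), hback g2 b2.2 _ (congrArg Prod.snd e2)⟩
    set γ₁ := g1 * g0⁻¹ with hγ₁
    set γ₂ := g2 * g0⁻¹ with hγ₂
    have hγ₁G : γ₁ ∈ G := mul_mem hg1 (inv_mem hg0)
    have hγ₂G : γ₂ ∈ G := mul_mem hg2 (inv_mem hg0)
    by_cases hall : γ₁ = 1 ∧ γ₂ = 1
    · rw [hall.1] at f1
      rw [hall.2] at f2
      have h3 : z ∘ (g0⁻¹ : Equiv.Perm ι) = 0 := by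
        apply hB (x ∘ (g0⁻¹ : Equiv.Perm ι)) (y ∘ (g0⁻¹ : Equiv.Perm ι))
        · rw [f0.1, f0.2]
          exact hb0
        · rw [f1.1, f1.2]
          exact hb1
        · rw [f2.1, f2.2]
          exact hb2
      funext i
      have := congrFun h3 (g0 i)
      simpa using this
    · exfalso
      have hmem : (γ₁, γ₂) ∈ tests := mem_filter.2 ⟨mem_univ _, hγ₁G, hγ₂G, hall⟩
      obtain ⟨i, hiT, hi0, hi1, hi2⟩ := hc _ hmem
      simp only at hi0 hi1 hi2
      have htgt : ∀ j, c j = tgt c0 c1 i (γ₁ i) (γ₂ i) j → W j := by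
        intro j hj
        simp only [tgt] at hj
        split_ifs at hj
        all_goals first | exact Or.inl hj | exact Or.inr hj
      have k0 := hBW _ hb0 _ (htgt _ hi0)
      have k1 := hBW _ hb1 _ (htgt _ hi1)
      have k2 := hBW _ hb2 _ (htgt _ hi2)
      set u := x ∘ (g0⁻¹ : Equiv.Perm ι) with hu
      set v := y ∘ (g0⁻¹ : Equiv.Perm ι) with hv
      set s := z ∘ (g0⁻¹ : Equiv.Perm ι) with hs
      have m0 : u i = w i := by rw [f0.1]; exact k0.1
      have m0' : v i = 0 := by rw [f0.2]; exact k0.2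
      have m1 : u i = w (γ₁ i) := by rw [f1.1]; exact k1.1
      have m1' : v i + s i = 0 := by
        have := congrFun f1.2 i
        rw [Pi.add_apply] at this
        rw [this]
        exact k1.2
      have hsi : s i = 0 := by rw [m0', zero_add] at m1'; exact m1'
      have m2 : u i = w (γ₂ i) := by
        have := congrFun f2.1 i
        rw [Pi.add_apply, hsi, add_zero] at this
        rw [this]
        exact k2.1
      have hwc : ∀ j j', W j → W j' → w j = w j' → c j = c j' := by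
        intro j j' hj hj' h
        simp only [w] at h
        by_cases h1 : c j = c1
        · by_cases h2 : c j' = c1
          · rw [h1, h2]
          · rw [if_pos h1, if_neg h2] at h
            exact absurd h ha
        · by_cases h2 : c j' = c1
          · rw [if_neg h1, if_pos h2] at h
            exact absurd h.symm ha
          · rw [hj.resolve_right h1, hj'.resolve_right h2]
      have q1 : c i = c (γ₁ i) := hwc _ _ (htgt _ hi0) (htgt _ hi1) (m0.symm.trans m1)
      have q2 : c i = c (γ₂ i) := hwc _ _ (htgt _ hi0) (htgt _ hi2) (m0.symm.trans m2)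
      rw [hi0, hi1] at q1
      rw [hi0, hi2] at q2
      refine tgt_ne hc01 i (γ₁ i) (γ₂ i) ?_ ⟨q1, q2⟩
      rcases mem_union.1 hiT with h | h
      · exact Or.inl (mem_mvset.1 h)
      · exact Or.inr (mem_mvset.1 h)
  refine ⟨Fintype.card {i // ¬ W i}, ?_, ?_, ?_⟩
  · rw [hWcard]
    exact Nat.sub_le _ _
  · rw [hWcard, Nat.sub_sub_self hWle]
    exact hcard
  · rw [← hBcard]
    exact (card_le_card hBA).trans (card_le_rG G A hAfree hinv)

end Pool.Agent.U465.Co
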