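import Mathlib

set_option autoImplicit false

/-! # Random patterns

For a finite family of tests (pairs of permutations `σ, τ` of the finite set `ι` with a set `T` of
indices and target colours for `i`, `σ i`, `τ i`) there is a colouring `c` of `ι` with `Q` colours such that
every test is passed at some index, and only few elements of `ι` have the colours `0` and `1`. -/

namespace Pool.Agent.U465

open Finset

variable {ι : Type} [Fintype ι] [DecidableEq ι]

/-- Colourings which avoid patterns on pairwise disjoint sets of size at most `k`. -/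
theorem count_avoid {δ : Type} [DecidableEq δ] (Q k : ℕ) (hQ : 0 < Q) (P : δ → Finset ι)
    (t : δ → ι → Fin Q) (D : Finset δ) (hP : ∀ a ∈ D, (P a).card ≤ k)
    (hd : ∀ a ∈ D, ∀ b ∈ D, a ≠ b → Disjoint (P a) (P b)) :
    ((univ.filter fun c : ι → Fin Q => ∀ a ∈ D, ∃ i ∈ P a, c i ≠ t a i).card : ℝ) ≤
      (Q : ℝ) ^ Fintype.card ι * (1 - 1 / (Q : ℝ) ^ k) ^ D.card := by
  have hQ1 : (1 : ℝ) ≤ Q := by exact_mod_cast hQ
  have hQ0 : (0 : ℝ) < Q := by linarith
  have hq0 : (0 : ℝ) ≤ 1 - 1 / (Q : ℝ) ^ k := by
    have : 1 / (Q : ℝ) ^ k ≤ 1 := by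
      rw [div_le_one (by positivity)]
      exact one_le_pow₀ hQ1
    linarith
  induction D using Finset.induction_on with
  | empty => simp
  | insert a D haD ih =>
    have ih' := ih (fun b hb => hP b (mem_insert_of_mem hb))
      (fun b hb b' hb' => hd b (mem_insert_of_mem hb) b' (mem_insert_of_mem hb'))
    set S := univ.filter fun c : ι → Fin Q => ∀ a ∈ D, ∃ i ∈ P a, c i ≠ t a i with hS
    set S' := S.filter fun c => ∀ i ∈ P a, c i = t a i with hS'
    have h1 : (univ.filter fun c : ι → Fin Q => ∀ b ∈ insert a D, ∃ i ∈ P b, c i ≠ t b i) =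
        S \ S' := by
      ext c
      simp only [hS, hS', mem_filter, mem_univ, true_and, mem_sdiff, mem_insert, forall_eq_or_imp,
        not_and, not_forall]
      constructor
      · rintro ⟨⟨i, hi, hne⟩, h⟩
        exact ⟨h, fun _ => ⟨i, hi, hne⟩⟩
      · rintro ⟨h, h'⟩
        obtain ⟨i, hi, hne⟩ := h' h
        exact ⟨⟨i, hi, hne⟩, h⟩
    have h2 : S.card ≤ S'.card * Q ^ k := by
      have h3 : S.card ≤ (S' ×ˢ (univ : Finset (P a → Fin Q))).card := by
        refine Finset.card_le_card_of_injOn
          (fun c => (fun i => if i ∈ P a then t a i else c i, fun j => c j)) ?_ ?_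
        · intro c hc
          have hc' : ∀ b ∈ D, ∃ i ∈ P b, c i ≠ t b i := by
            have : c ∈ S := hc
            simpa [hS] using this
          simp only [coe_product, coe_univ, Set.mem_prod, mem_coe, Set.mem_univ, and_true]
          rw [hS', mem_filter, hS, mem_filter]
          refine ⟨⟨mem_univ _, fun b hb => ?_⟩, fun i hi => by simp [hi]⟩
          obtain ⟨i, hi, hne⟩ := hc' b hb
          have hab : a ≠ b := fun h => haD (h ▸ hb)
          have hia : i ∉ P a := fun h =>
            Finset.disjoint_left.1 (hd a (mem_insert_self _ _) b (mem_insert_of_mem hb) hab) h hi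
          exact ⟨i, hi, by simpa [hia] using hne⟩
        · intro c hc c' hc' h
          simp only [Prod.mk.injEq] at h
          funext i
          by_cases hi : i ∈ P a
          · exact congrFun h.2 ⟨i, hi⟩
          · have := congrFun h.1 i
            simpa [hi] using this
      rw [card_product, Finset.card_univ, Fintype.card_fun, Fintype.card_coe, Fintype.card_fin] at h3
      exact h3.trans (Nat.mul_le_mul_left _ (Nat.pow_le_pow_right hQ (hP a (mem_insert_self _ _))))
    have h4 : ((S \ S').card : ℝ) = S.card - S'.card := by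
      rw [Finset.card_sdiff_of_subset (Finset.filter_subset _ _), Nat.cast_sub
        (Finset.card_le_card (Finset.filter_subset _ _))]
    have h5 : (S.card : ℝ) ≤ S'.card * (Q : ℝ) ^ k := by exact_mod_cast h2
    rw [h1, h4, card_insert_of_notMem haD, pow_succ]
    have h6 : (S.card : ℝ) / (Q : ℝ) ^ k ≤ S'.card := by
      rw [div_le_iff₀ (by positivity)]
      exact h5
    calc (S.card : ℝ) - S'.card ≤ S.card * (1 - 1 / (Q : ℝ) ^ k) := by
          have : (S.card : ℝ) * (1 - 1 / (Q : ℝ) ^ k) = S.card - S.card / (Q : ℝ) ^ k := by ring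
          linarith
      _ ≤ ((Q : ℝ) ^ Fintype.card ι * (1 - 1 / (Q : ℝ) ^ k) ^ D.card) * (1 - 1 / (Q : ℝ) ^ k) :=
          mul_le_mul_of_nonneg_right ih' hq0
      _ = _ := by ring

/-- Among sets `P i` with at most 3 elements, such that no element is in more than 3 of them,
one ninth are pairwise disjoint. -/
theorem exists_disjoint (T : Finset ι) (P : ι → Finset ι) (hP : ∀ i ∈ T, (P i).card ≤ 3)
    (hm : ∀ j, (T.filter fun i => j ∈ P i).card ≤ 3) (hne : ∀ i ∈ T, (P i).Nonempty) :
    ∃ D ⊆ T, (∀ a ∈ D, ∀ b ∈ D, a ≠ b → Disjoint (P a) (P b)) ∧ T.card ≤ 9 * D.card := by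
  classical
  let F := T.powerset.filter fun D => ∀ a ∈ D, ∀ b ∈ D, a ≠ b → Disjoint (P a) (P b)
  have hF : F.Nonempty := ⟨∅, by simp [F]⟩
  obtain ⟨D, hD, hmax⟩ := Finset.exists_max_image F Finset.card hF
  have hD' := (mem_filter.1 hD)
  have hDT : D ⊆ T := mem_powerset.1 hD'.1
  refine ⟨D, hDT, hD'.2, ?_⟩
  have hcov : T ⊆ D.biUnion fun d => (P d).biUnion fun j => T.filter fun i => j ∈ P i := by
    intro i hi
    by_contra hcon
    have hdis : ∀ d ∈ D, Disjoint (P i) (P d) := by
      intro d hd
      rw [Finset.disjoint_left]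
      intro j hj1 hj2
      apply hcon
      rw [mem_biUnion]
      refine ⟨d, hd, ?_⟩
      rw [mem_biUnion]
      exact ⟨j, hj2, mem_filter.2 ⟨hi, hj1⟩⟩
    have hiD : i ∉ D := by
      intro h
      obtain ⟨j, hj⟩ := hne i hi
      exact Finset.disjoint_left.1 (hdis i h) hj hj
    have hnew : insert i D ∈ F := by
      refine mem_filter.2 ⟨mem_powerset.2 (insert_subset hi hDT), ?_⟩
      intro a ha b hb hab
      rw [mem_insert] at ha hb
      rcases ha with rfl | ha
      · rcases hb with rfl | hb
        · exact absurd rfl hab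
        · exact hdis b hb
      · rcases hb with rfl | hb
        · exact (hdis a ha).symm
        · exact hD'.2 a ha b hb hab
    have := hmax _ hnew
    rw [card_insert_of_notMem hiD] at this
    omega
  calc T.card ≤ _ := card_le_card hcov
    _ ≤ ∑ d ∈ D, ((P d).biUnion fun j => T.filter fun i => j ∈ P i).card := card_biUnion_le
    _ ≤ ∑ d ∈ D, 9 := by
        refine sum_le_sum fun d hd => ?_
        calc _ ≤ ∑ j ∈ P d, (T.filter fun i => j ∈ P i).card := card_biUnion_le
          _ ≤ ∑ j ∈ P d, 3 := sum_le_sum fun j _ => hm j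
          _ = (P d).card * 3 := by rw [sum_const, smul_eq_mul]
          _ ≤ 3 * 3 := Nat.mul_le_mul_right _ (hP d (hDT hd))
          _ = 9 := rfl
    _ = 9 * D.card := by rw [sum_const, smul_eq_mul, mul_comm]

/-- few elements have the colours `0`, `1` -/
theorem few (Q : ℕ) (hQ : 2 ≤ Q) (a b : Fin Q) :
    ((univ.filter fun c : ι → Fin Q =>
      4 * Fintype.card ι < Q * (univ.filter fun i => c i = a ∨ c i = b).card).card : ℝ) ≤
        (Q : ℝ) ^ Fintype.card ι / 2 := by
  classical
  set n := Fintype.card ι with hn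
  set B := univ.filter fun c : ι → Fin Q =>
      4 * n < Q * (univ.filter fun i => c i = a ∨ c i = b).card with hB
  rcases Nat.eq_zero_or_pos n with h0 | hpos
  · have : B = ∅ := by
      rw [hB, Finset.filter_eq_empty_iff]
      intro c _
      have h1 : (univ.filter fun i => c i = a ∨ c i = b).card ≤ n := by
        rw [hn]; exact card_le_univ _
      have h2 : (univ.filter fun i => c i = a ∨ c i = b).card = 0 := by omega
      rw [h2]
      simp
    rw [this]
    simp only [card_empty, Nat.cast_zero]
    positivity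
  -- the number of colourings with a given colour at `i`
  have hone : ∀ (i : ι) (e : Fin Q), (univ.filter fun c : ι → Fin Q => c i = e).card * Q ≤ Q ^ n := by
    intro i e
    have h3 : (univ.filter fun c : ι → Fin Q => c i = e).card * Q =
        ((univ.filter fun c : ι → Fin Q => c i = e) ×ˢ (univ : Finset (Fin Q))).card := by
      rw [card_product, Finset.card_univ, Fintype.card_fin]
    rw [h3]
    have h4 : ((univ.filter fun c : ι → Fin Q => c i = e) ×ˢ (univ : Finset (Fin Q))).card ≤
        (univ : Finset (ι → Fin Q)).card := by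
      refine Finset.card_le_card_of_injOn (fun q => Function.update q.1 i q.2)
        (fun _ _ => mem_coe.2 (mem_univ _)) ?_
      rintro ⟨c, u⟩ hc ⟨c', u'⟩ hc' h
      simp only [coe_product, coe_univ, Set.mem_prod, mem_coe, mem_filter, mem_univ, true_and,
        Set.mem_univ, and_true] at hc hc'
      have hu : u = u' := by
        have := congrFun h i
        simpa using this
      have hcc : c = c' := by
        funext j
        by_cases hj : j = i
        · rw [hj, hc, hc']
        · have := congrFun h j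
          simpa [Function.update_of_ne hj] using this
      rw [hu, hcc]
    rw [Finset.card_univ, Fintype.card_fun, Fintype.card_fin] at h4
    exact h4
  have hsum : ∑ c : ι → Fin Q, Q * (univ.filter fun i => c i = a ∨ c i = b).card ≤
      2 * n * Q ^ n := by
    have h1 : ∀ c : ι → Fin Q, (univ.filter fun i => c i = a ∨ c i = b).card ≤
        ∑ i : ι, ((if c i = a then 1 else 0) + (if c i = b then 1 else 0)) := by
      intro c
      rw [card_filter]
      refine sum_le_sum fun i _ => ?_
      by_cases ha : c i = a <;> by_cases hb : c i = b <;> simp [ha, hb]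
    calc ∑ c : ι → Fin Q, Q * (univ.filter fun i => c i = a ∨ c i = b).card
        ≤ ∑ c : ι → Fin Q, Q * ∑ i : ι, ((if c i = a then 1 else 0) + (if c i = b then 1 else 0)) :=
          sum_le_sum fun c _ => Nat.mul_le_mul_left _ (h1 c)
      _ = ∑ i : ι, (Q * (∑ c : ι → Fin Q, (if c i = a then 1 else 0)) +
            Q * (∑ c : ι → Fin Q, (if c i = b then 1 else 0))) := by
          rw [← mul_sum, sum_comm, mul_sum]
          refine sum_congr rfl fun i _ => ?_
          rw [sum_add_distrib, mul_add]
      _ ≤ ∑ i : ι, (Q ^ n + Q ^ n) := by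
          refine sum_le_sum fun i _ => Nat.add_le_add ?_ ?_
          · rw [← card_filter, mul_comm]; exact hone i a
          · rw [← card_filter, mul_comm]; exact hone i b
      _ = 2 * n * Q ^ n := by
          rw [sum_const, smul_eq_mul, Finset.card_univ, ← hn]
          ring
  have hB2 : B.card * (4 * n) ≤ 2 * n * Q ^ n := by
    calc B.card * (4 * n) = ∑ c ∈ B, 4 * n := by rw [sum_const, smul_eq_mul]
      _ ≤ ∑ c ∈ B, Q * (univ.filter fun i => c i = a ∨ c i = b).card :=
          sum_le_sum fun c hc => (mem_filter.1 hc).2.le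
      _ ≤ ∑ c : ι → Fin Q, Q * (univ.filter fun i => c i = a ∨ c i = b).card :=
          sum_le_sum_of_subset (subset_univ _)
      _ ≤ _ := hsum
  have hB3 : 2 * B.card ≤ Q ^ n := by
    have : (2 * n) * (2 * B.card) ≤ (2 * n) * Q ^ n := by linarith [hB2]
    exact Nat.le_of_mul_le_mul_left this (by omega)
  have : (2 : ℝ) * B.card ≤ (Q : ℝ) ^ n := by exact_mod_cast hB3
  linarith

/-- **Random patterns.** -/
theorem exists_pattern {E : Type} (tests : Finset E) (Q : ℕ) (hQ : 2 ≤ Q) (a b : Fin Q)
    (σ τ : E → Equiv.Perm ι) (T : E → Finset ι) (t : E → ι → ι → Fin Q)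
    (hsum : ∑ e ∈ tests, Real.exp (-((T e).card / (9 * (Q : ℝ) ^ 3))) < 1 / 2) :
    ∃ c : ι → Fin Q, (∀ e ∈ tests, ∃ i ∈ T e, c i = t e i i ∧ c (σ e i) = t e i (σ e i) ∧
        c (τ e i) = t e i (τ e i)) ∧
      Q * (univ.filter fun i => c i = a ∨ c i = b).card ≤ 4 * Fintype.card ι := by
  classical
  have hQ1 : (1 : ℝ) ≤ Q := by exact_mod_cast (by omega : 1 ≤ Q)
  have hQ0 : (0 : ℝ) < Q := by linarith
  set n := Fintype.card ι with hn
  -- the bad colourings
  let bad : E → Finset (ι → Fin Q) := fun e => univ.filter fun c =>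
    ∀ i ∈ T e, ∃ j ∈ ({i, σ e i, τ e i} : Finset ι), c j ≠ t e i j
  let B := univ.filter fun c : ι → Fin Q =>
      4 * Fintype.card ι < Q * (univ.filter fun i => c i = a ∨ c i = b).card
  have hbad : ∀ e, ((bad e).card : ℝ) ≤
      (Q : ℝ) ^ n * Real.exp (-((T e).card / (9 * (Q : ℝ) ^ 3))) := by
    intro e
    obtain ⟨D, hDT, hDd, hDc⟩ := exists_disjoint (T e) (fun i => ({i, σ e i, τ e i} : Finset ι))
      (fun i _ => card_le_three) (fun j => by
        calc _ ≤ ({j, (σ e).symm j, (τ e).symm j} : Finset ι).card := by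
              refine card_le_card fun i hi => ?_
              have := (mem_filter.1 hi).2
              simp only [mem_insert, mem_singleton] at this ⊢
              rcases this with h | h | h
              · exact Or.inl h.symm
              · right; left; rw [h, Equiv.symm_apply_apply]
              · right; right; rw [h, Equiv.symm_apply_apply]
          _ ≤ 3 := card_le_three) (fun i _ => ⟨i, mem_insert_self _ _⟩)
    have h1 := count_avoid Q 3 (by omega) (fun i => ({i, σ e i, τ e i} : Finset ι)) (t e) D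
      (fun i _ => card_le_three) hDd
    have h2 : ((bad e).card : ℝ) ≤ ((univ.filter fun c : ι → Fin Q =>
        ∀ i ∈ D, ∃ j ∈ ({i, σ e i, τ e i} : Finset ι), c j ≠ t e i j).card : ℝ) := by
      have h3 : bad e ⊆ univ.filter fun c : ι → Fin Q =>
          ∀ i ∈ D, ∃ j ∈ ({i, σ e i, τ e i} : Finset ι), c j ≠ t e i j := by
        intro c hc
        have hc' : ∀ i ∈ T e, ∃ j ∈ ({i, σ e i, τ e i} : Finset ι), c j ≠ t e i j := by
          simpa only [bad, mem_filter, mem_univ, true_and] using hc
        exact mem_filter.2 ⟨mem_univ _, fun i hi => hc' i (hDT hi)⟩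
      exact_mod_cast card_le_card h3
    have h0 : (0 : ℝ) ≤ (Q : ℝ) ^ Fintype.card ι := by positivity
    have h1' : ((univ.filter fun c : ι → Fin Q =>
        ∀ i ∈ D, ∃ j ∈ ({i, σ e i, τ e i} : Finset ι), c j ≠ t e i j).card : ℝ) ≤
        (Q : ℝ) ^ Fintype.card ι * (1 - 1 / (Q : ℝ) ^ 3) ^ D.card := by
      convert h1
    refine h2.trans (h1'.trans (mul_le_mul_of_nonneg_left ?_ h0))
    have hq : (0 : ℝ) ≤ 1 - 1 / (Q : ℝ) ^ 3 := by
      have : 1 / (Q : ℝ) ^ 3 ≤ 1 := by
        rw [div_le_one (by positivity)]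
        exact one_le_pow₀ hQ1
      linarith
    calc (1 - 1 / (Q : ℝ) ^ 3) ^ D.card ≤ (Real.exp (-(1 / (Q : ℝ) ^ 3))) ^ D.card := by
          refine pow_le_pow_left₀ hq ?_ _
          have := Real.add_one_le_exp (-(1 / (Q : ℝ) ^ 3))
          linarith
      _ = Real.exp (-(D.card * (1 / (Q : ℝ) ^ 3))) := by
          rw [← Real.exp_nat_mul]
          ring_nf
      _ ≤ Real.exp (-((T e).card / (9 * (Q : ℝ) ^ 3))) := by
          apply Real.exp_le_exp.2
          rw [neg_le_neg_iff, div_le_iff₀ (by positivity)]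
          have h3 : ((T e).card : ℝ) ≤ 9 * D.card := by exact_mod_cast hDc
          calc ((T e).card : ℝ) ≤ 9 * D.card := h3
            _ = D.card * (1 / (Q : ℝ) ^ 3) * (9 * (Q : ℝ) ^ 3) := by
              field_simp
  have hB := few (ι := ι) Q hQ a b
  have hlt : ((B ∪ tests.biUnion bad).card : ℝ) < (Q : ℝ) ^ n := by
    have h1 : ((B ∪ tests.biUnion bad).card : ℝ) ≤ B.card + ∑ e ∈ tests, ((bad e).card : ℝ) := by
      have h2 := card_union_le B (tests.biUnion bad)
      have h3 := card_biUnion_le (s := tests) (t := bad)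
      exact_mod_cast h2.trans (Nat.add_le_add_left h3 _)
    have h4 : ∑ e ∈ tests, ((bad e).card : ℝ) ≤
        (Q : ℝ) ^ n * ∑ e ∈ tests, Real.exp (-((T e).card / (9 * (Q : ℝ) ^ 3))) := by
      rw [mul_sum]
      exact sum_le_sum fun e _ => hbad e
    have h5 : (Q : ℝ) ^ n * ∑ e ∈ tests, Real.exp (-((T e).card / (9 * (Q : ℝ) ^ 3))) <
        (Q : ℝ) ^ n * (1 / 2) := mul_lt_mul_of_pos_left hsum (by positivity)
    have h6 : (B.card : ℝ) ≤ (Q : ℝ) ^ n / 2 := hB
    linarith
  have hex : ∃ c : ι → Fin Q, c ∉ B ∪ tests.biUnion bad := by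
    by_contra hcon
    push Not at hcon
    have h1 : (univ : Finset (ι → Fin Q)) ⊆ B ∪ tests.biUnion bad := fun c _ => hcon c
    have h2 := card_le_card h1
    rw [Finset.card_univ, Fintype.card_fun, Fintype.card_fin] at h2
    have h3 : ((Q : ℝ)) ^ n ≤ ((B ∪ tests.biUnion bad).card : ℝ) := by exact_mod_cast h2
    linarith
  obtain ⟨c, hc⟩ := hex
  rw [mem_union, not_or] at hc
  refine ⟨c, fun e he => ?_, ?_⟩
  · have h1 : c ∉ bad e := fun h => hc.2 (mem_biUnion.2 ⟨e, he, h⟩)
    simp only [bad, mem_filter, mem_univ, true_and, not_forall, not_exists, not_and,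
      not_not] at h1
    obtain ⟨i, hi, h⟩ := h1
    exact ⟨i, hi, h i (by simp), h (σ e i) (by simp), h (τ e i) (by simp)⟩
  · have h1 := hc.1
    simp only [B, mem_filter, mem_univ, true_and, not_lt] at h1
    exact h1

end Pool.Agent.U465
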